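import Pool.Agent.Q60.ED.ThmA

/-!
# Multiplicative families of maps on a system of tensors are given by matrices
-/

set_option linter.unusedSectionVars false

namespace Pool.Agent.Q55.Ke

open MvPolynomial Algebra Module Pool.Agent.Q60.ED

variable {K : Type} [Field K] {ι : Type} [Fintype ι] [DecidableEq ι]

/-- A family of maps which is compatible with permutations and with products. -/
structure MSys (S : ∀ n : ℕ, Submodule K ((Fin n → ι) → K)) where
  /-- the maps -/
  P : ∀ n : ℕ, ((Fin n → ι) → K) →ₗ[K] ((Fin n → ι) → K)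
  perm : ∀ n (σ : Equiv.Perm (Fin n)) (t : (Fin n → ι) → K) (I : Fin n → ι),
    P n (fun J => t (J ∘ σ)) I = P n t (I ∘ σ)
  mul : ∀ (m n : ℕ) (s : (Fin m → ι) → K) (t : (Fin n → ι) → K), s ∈ S m →
    P (m + n) (tmul s t) = tmul (P m s) (P n t)
  one : P 0 (fun _ => 1) = fun _ => 1

namespace MSys

variable {S : ∀ n : ℕ, Submodule K ((Fin n → ι) → K)} (T : MSys S)

/-- The matrix coefficient. -/
noncomputable def val (n : ℕ) (q : Fin n → ι × ι) : K :=
  T.P n (Pi.single (fun k => (q k).2) 1) fun k => (q k).1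

lemma val_perm {n : ℕ} (q : Fin n → ι × ι) (σ : Equiv.Perm (Fin n)) :
    T.val n (q ∘ σ) = T.val n q := by
  have h1 := T.perm n σ (Pi.single (fun k => (q (σ k)).2) 1) fun k => (q k).1
  have h2 : (fun J : Fin n → ι => (Pi.single (fun k => (q (σ k)).2) 1 : (Fin n → ι) → K) (J ∘ σ)) =
      Pi.single (fun k => (q k).2) 1 := by
    funext J
    rw [Pi.single_apply, Pi.single_apply]
    congr 1
    apply propext
    constructor
    · intro h
      funext k
      have h3 := congrFun h (σ.symm k)
      simpa using h3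
    · rintro rfl
      rfl
  rw [h2] at h1
  exact h1.symm

lemma val_eq {n n' : ℕ} (q : Fin n → ι × ι) (q' : Fin n' → ι × ι)
    (h : ∑ k, Finsupp.single (q k) 1 = ∑ k, Finsupp.single (q' k) (1 : ℕ)) :
    T.val n q = T.val n' q' := by
  obtain ⟨e, he⟩ := exists_equiv q q' h
  have hn : n = n' := by simpa using Fintype.card_congr e
  subst hn
  have h1 : q = q' ∘ e := funext fun k => (he k).symm
  rw [h1, val_perm]

/-- The functional. -/
noncomputable def lam : MvPolynomial (ι × ι) K →ₗ[K] K :=
  (basisMonomials (ι × ι) K).constr K fun m =>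
    T.val (exists_seq m).choose (exists_seq m).choose_spec.choose

lemma lam_mon {n : ℕ} (I J : Fin n → ι) : T.lam (mon I J) = T.P n (Pi.single J 1) I := by
  have h1 : T.lam (monomial (∑ k, Finsupp.single (I k, J k) 1) 1) =
      T.val (exists_seq (∑ k, Finsupp.single (I k, J k) 1)).choose
        (exists_seq (∑ k, Finsupp.single (I k, J k) 1)).choose_spec.choose := by
    have h2 := (basisMonomials (ι × ι) K).constr_basis K (fun m =>
      T.val (exists_seq m).choose (exists_seq m).choose_spec.choose)
      (∑ k, Finsupp.single (I k, J k) 1)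
    rw [coe_basisMonomials] at h2
    exact h2
  rw [TSys.mon_eq, h1]
  exact T.val_eq _ (fun k => (I k, J k)) (exists_seq _).choose_spec.choose_spec

lemma lam_one : T.lam 1 = 1 := by
  have h1 := T.lam_mon (n := 0) Fin.elim0 Fin.elim0
  have h2 : (mon (Fin.elim0 : Fin 0 → ι) Fin.elim0 : MvPolynomial (ι × ι) K) = 1 := by
    rw [mon, Finset.univ_eq_empty, Finset.prod_empty]
  rw [h2] at h1
  rw [h1]
  have h3 : (Pi.single (Fin.elim0 : Fin 0 → ι) (1 : K) : (Fin 0 → ι) → K) = fun _ => 1 := by
    funext J
    rw [Pi.single_apply, if_pos (Subsingleton.elim _ _)]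
  rw [h3, T.one]

lemma lam_xt_mul {m n : ℕ} (s : (Fin m → ι) → K) (I : Fin m → ι) (I' J' : Fin n → ι) :
    T.lam (xt s I * mon I' J') = T.P (m + n) (tmul s (Pi.single J' 1)) (Fin.append I I') := by
  have h1 : tmul s (Pi.single J' 1) =
      ∑ J, s J • (Pi.single (Fin.append J J') 1 : (Fin (m + n) → ι) → K) := by
    funext L
    rw [Finset.sum_apply, tmul, Finset.sum_eq_single fun k => L (Fin.castAdd n k)]
    · rw [Pi.smul_apply, smul_eq_mul, Pi.single_apply, Pi.single_apply]
      congr 2
      apply propext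
      constructor
      · intro h
        rw [← h]
        exact Fin.append_castAdd_natAdd.symm
      · intro h
        funext k
        have h2 := congrFun h (Fin.natAdd m k)
        rw [Fin.append_right] at h2
        exact h2
    · intro J _ hJ
      rw [Pi.smul_apply, Pi.single_apply, if_neg, smul_zero]
      rintro rfl
      apply hJ
      funext k
      rw [Fin.append_left]
    · intro h; exact absurd (Finset.mem_univ _) h
  rw [h1, xt, Finset.sum_mul, map_sum, map_sum, Finset.sum_apply]
  refine Finset.sum_congr rfl fun J _ => ?_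
  rw [map_smul, Pi.smul_apply, mul_assoc, ← mon_append, ← smul_eq_C_mul, map_smul, lam_mon]

/-- The ideal of the equations. -/
noncomputable def Id : Ideal (MvPolynomial (ι × ι) K) :=
  Ideal.span {f | ∃ (n : ℕ) (s : (Fin n → ι) → K) (I : Fin n → ι), s ∈ S n ∧
    f = xt s I - C (T.P n s I)}

/-- The functional vanishes on the ideal. -/
theorem lam_Id {f : MvPolynomial (ι × ι) K} (hf : f ∈ T.Id) : T.lam f = 0 := by
  have key0 : ∀ (m : ℕ) (s : (Fin m → ι) → K) (I : Fin m → ι), s ∈ S m →
      ∀ (n : ℕ) (I' J' : Fin n → ι), T.lam (mon I' J' * (xt s I - C (T.P m s I))) = 0 := by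
    intro m s I hs n I' J'
    have h1 : mon I' J' * (xt s I - C (T.P m s I)) =
        xt s I * mon I' J' - T.P m s I • mon I' J' := by
      rw [smul_eq_C_mul]
      ring
    rw [h1, map_sub, lam_xt_mul, T.mul m n s _ hs, map_smul, lam_mon, tmul]
    simp only [Fin.append_left, Fin.append_right, smul_eq_mul]
    exact sub_self _
  have key : ∀ (m : ℕ) (s : (Fin m → ι) → K) (I : Fin m → ι), s ∈ S m →
      ∀ g, T.lam (g * (xt s I - C (T.P m s I))) = 0 := by
    intro m s I hs g
    rw [g.as_sum, Finset.sum_mul, map_sum]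
    refine Finset.sum_eq_zero fun v _ => ?_
    obtain ⟨n, I', J', hv⟩ := TSys.exists_mon (K := K) v
    have h1 : monomial v (coeff v g) = coeff v g • monomial v (1 : K) := by
      rw [smul_monomial, smul_eq_mul, mul_one]
    rw [h1, hv, smul_mul_assoc, map_smul, key0 m s I hs, smul_zero]
  have key2 : ∀ g, T.lam (g * f) = 0 := by
    refine Submodule.span_induction (p := fun f _ => ∀ g, T.lam (g * f) = 0) ?_ ?_ ?_ ?_ hf
    · rintro _ ⟨m, s, I, hs, rfl⟩ g
      exact key m s I hs g
    · intro g
      rw [mul_zero, map_zero]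
    · intro a b _ _ ha hb g
      rw [mul_add, map_add, ha, hb, add_zero]
    · intro c a _ ha g
      rw [smul_eq_mul, ← mul_assoc]
      exact ha _
  have := key2 1
  rwa [one_mul] at this

/-- **A multiplicative family of maps is given by a matrix on the tensors of the system.** -/
theorem exists_matrix [IsAlgClosed K] :
    ∃ g : Matrix ι ι K, ∀ n, ∀ s ∈ S n, tpow g n s = T.P n s := by
  have htop : T.Id ≠ ⊤ := by
    intro h
    have h1 : (1 : MvPolynomial (ι × ι) K) ∈ T.Id := by rw [h]; trivial
    have h2 := T.lam_Id h1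
    rw [lam_one] at h2
    exact one_ne_zero h2
  obtain ⟨𝔪, h𝔪, hle⟩ := Ideal.exists_le_maximal T.Id htop
  obtain ⟨x, hx⟩ := (isMaximal_iff_eq_vanishingIdeal_singleton (K := K)).1 h𝔪
  refine ⟨Matrix.of fun a b => x (a, b), fun n s hs => ?_⟩
  funext I
  have h1 : xt s I - C (T.P n s I) ∈ 𝔪 := hle (Ideal.subset_span ⟨n, s, I, hs, rfl⟩)
  rw [hx, mem_vanishingIdeal_singleton_iff] at h1
  have h2 : evM (Matrix.of fun a b => x (a, b)) (xt s I - C (T.P n s I)) = 0 := h1
  rw [map_sub, evM_xt, evM_C] at h2
  exact sub_eq_zero.1 h2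

end MSys

end Pool.Agent.Q55.Ke
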