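import Pool.Agent.Q60.NP.Sub
import Pool.Agent.Q55.Ke.Pair

/-!
# Matrices which preserve a bilinear form, and systems of tensors
-/

set_option linter.unusedSectionVars false

namespace Pool.Agent.Q55.Ke

open Module Matrix Pool.Agent.Q60.ED Pool.Agent.Q60.NP

section Field

variable {K : Type} [Field K] {ι : Type} [Fintype ι] [DecidableEq ι]

/-- The matrices which preserve the form. -/
def Aut (B : Matrix ι ι K) : Set (Matrix ι ι K) := {g | gᵀ * B * g = B}

/-- The tensor of the inverse form. -/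
noncomputable def om (B : Matrix ι ι K) : (Fin 2 → ι) → K := fun w => B⁻¹ (w 0) (w 1)

lemma mat2_om (B : Matrix ι ι K) : mat2 (om B) = B⁻¹ := by
  ext i j
  rfl

variable {B : Matrix ι ι K} {g h : Matrix ι ι K}

lemma mem_Aut : g ∈ Aut B ↔ gᵀ * B * g = B := Iff.rfl

lemma one_mem_Aut : (1 : Matrix ι ι K) ∈ Aut B := by
  rw [mem_Aut, transpose_one, one_mul, mul_one]

lemma mul_mem_Aut (hg : g ∈ Aut B) (hh : h ∈ Aut B) : g * h ∈ Aut B := by
  rw [mem_Aut, transpose_mul]
  calc hᵀ * gᵀ * B * (g * h) = hᵀ * (gᵀ * B * g) * h := by simp only [Matrix.mul_assoc]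
    _ = B := by rw [hg, hh]

lemma det_Aut (hB : B.det ≠ 0) (hg : g ∈ Aut B) : g.det ≠ 0 := by
  intro h0
  have h1 := congrArg Matrix.det (mem_Aut.1 hg)
  rw [det_mul, h0, mul_zero] at h1
  exact hB h1.symm

lemma inv_mem_Aut (hB : B.det ≠ 0) (hg : g ∈ Aut B) : g⁻¹ ∈ Aut B := by
  have hu := isUnit_iff_ne_zero.2 (det_Aut hB hg)
  rw [mem_Aut]
  calc (g⁻¹)ᵀ * B * g⁻¹ = (g⁻¹)ᵀ * (gᵀ * B * g) * g⁻¹ := by rw [hg]
    _ = ((g⁻¹)ᵀ * gᵀ) * B * (g * g⁻¹) := by simp only [Matrix.mul_assoc]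
    _ = B := by
      rw [← transpose_mul, mul_nonsing_inv _ hu, transpose_one, one_mul, mul_one]

/-- The dual relation. -/
lemma Aut_dual (hB : B.det ≠ 0) : g ∈ Aut B ↔ g * B⁻¹ * gᵀ = B⁻¹ := by
  have hBu := isUnit_iff_ne_zero.2 hB
  constructor
  · intro hg
    have h1 : (B⁻¹ * gᵀ * B) * g = 1 := by
      calc (B⁻¹ * gᵀ * B) * g = B⁻¹ * (gᵀ * B * g) := by simp only [Matrix.mul_assoc]
        _ = 1 := by rw [hg, nonsing_inv_mul _ hBu]
    have h2 := mul_eq_one_comm.1 h1
    calc g * B⁻¹ * gᵀ = g * (B⁻¹ * gᵀ * B) * B⁻¹ := by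
          simp only [Matrix.mul_assoc]
          rw [mul_nonsing_inv _ hBu, Matrix.mul_one]
      _ = B⁻¹ := by rw [h2, one_mul]
  · intro hg
    have h1 : g * (B⁻¹ * gᵀ * B) = 1 := by
      calc g * (B⁻¹ * gᵀ * B) = (g * B⁻¹ * gᵀ) * B := by simp only [Matrix.mul_assoc]
        _ = 1 := by rw [hg, nonsing_inv_mul _ hBu]
    have h2 := mul_eq_one_comm.1 h1
    rw [mem_Aut]
    calc gᵀ * B * g = B * (B⁻¹ * gᵀ * B * g) := by
          simp only [← Matrix.mul_assoc]
          rw [mul_nonsing_inv _ hBu, Matrix.one_mul]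
      _ = B := by rw [h2, mul_one]

lemma mat2_inj {s t : (Fin 2 → ι) → K} (h : mat2 s = mat2 t) : s = t := by
  funext w
  have h1 := congrFun (congrFun h (w 0)) (w 1)
  rw [mat2, mat2, Matrix.of_apply, Matrix.of_apply] at h1
  have h2 : (![w 0, w 1] : Fin 2 → ι) = w := by
    funext k
    fin_cases k <;> rfl
  rwa [h2] at h1

/-- The matrices which preserve the form fix the tensor of the inverse form. -/
lemma Aut_om (hB : B.det ≠ 0) : g ∈ Aut B ↔ tpow g 2 (om B) = om B := by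
  rw [Aut_dual hB]
  constructor
  · intro h
    apply mat2_inj
    rw [tpow_two, mat2_om, h]
  · intro h
    have h1 := tpow_two g (om B)
    rw [h, mat2_om] at h1
    exact h1.symm

lemma tpow_perm (g : Matrix ι ι K) {n : ℕ} (σ : Equiv.Perm (Fin n)) (t : (Fin n → ι) → K) :
    tpow g n (fun J => t (J ∘ σ)) = fun I => tpow g n t (I ∘ σ) := by
  funext I
  rw [tpow_apply, tpow_apply, ← (Equiv.arrowCongr σ (Equiv.refl ι)).sum_comp]
  refine Finset.sum_congr rfl fun J _ => ?_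
  have e3 : (Equiv.arrowCongr σ (Equiv.refl ι)) J = J ∘ σ.symm := rfl
  have e4 : (J ∘ σ.symm) ∘ σ = J := by funext x; simp
  rw [e3, e4]
  congr 1
  rw [← Equiv.prod_comp σ]
  refine Finset.prod_congr rfl fun k _ => ?_
  simp

lemma tpow_tmul (g : Matrix ι ι K) {m n : ℕ} (s : (Fin m → ι) → K) (t : (Fin n → ι) → K) :
    tpow g (m + n) (tmul s t) = tmul (tpow g m s) (tpow g n t) := by
  funext I
  rw [tmul, tpow_apply, tpow_apply, tpow_apply, sum_append, Finset.sum_mul_sum]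
  refine Finset.sum_congr rfl fun J _ => Finset.sum_congr rfl fun L _ => ?_
  rw [Fin.prod_univ_add, tmul]
  simp only [Fin.append_left, Fin.append_right]
  ring

lemma tpow_zero (g : Matrix ι ι K) (t : (Fin 0 → ι) → K) : tpow g 0 t = t := by
  funext I
  rw [tpow_apply, Fintype.sum_unique, Finset.univ_eq_empty, Finset.prod_empty, one_mul]
  exact congrArg t (Subsingleton.elim _ _)

/-- The contraction of tensors. -/
noncomputable def ctr (B : Matrix ι ι K) {m n : ℕ} (s : (Fin m → ι) → K)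
    (t : (Fin (m + n) → ι) → K) : (Fin n → ι) → K :=
  fun J => ∑ I, ∑ I', s I * TP B m I I' * t (Fin.append I' J)

lemma tpow_ctr (hB : B.det ≠ 0) (hg : g ∈ Aut B) {m n : ℕ} (s : (Fin m → ι) → K)
    (t : (Fin (m + n) → ι) → K) :
    tpow g n (ctr B s t) = ctr B (tpow g m s) (tpow g (m + n) t) := by
  funext L
  have h1 := tpow_contr (det_Aut hB hg) B s t L
  rw [show ((g⁻¹).transpose * B * g⁻¹) = B from inv_mem_Aut hB hg] at h1
  exact h1

/-- The system of the fixed tensors. -/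
noncomputable def fixSys (hB : B.det ≠ 0) (hg : g ∈ Aut B) : CSys B where
  S n := LinearMap.eqLocus (tpow g n) LinearMap.id
  one := by
    rw [LinearMap.mem_eqLocus, tpow_zero]
    rfl
  mul {m n s t} hs ht := by
    rw [LinearMap.mem_eqLocus] at hs ht ⊢
    rw [tpow_tmul, hs, ht]
    rfl
  perm {n} σ t ht := by
    rw [LinearMap.mem_eqLocus] at ht ⊢
    rw [tpow_perm, ht]
    rfl
  contr {m n s t} hs ht := by
    rw [LinearMap.mem_eqLocus] at hs ht ⊢
    have h1 := tpow_ctr hB hg s t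
    rw [hs, ht] at h1
    exact h1
  om := (Aut_om hB).1 hg

lemma mem_fixSys (hB : B.det ≠ 0) (hg : g ∈ Aut B) {n : ℕ} {t : (Fin n → ι) → K} :
    t ∈ (fixSys hB hg).S n ↔ tpow g n t = t := Iff.rfl

/-- A matrix which fixes the tensors of low degree fixes the generated tensors. -/
lemma fix_genS {C : CSys B} {M : ℕ} (hB : B.det ≠ 0) (hg : g ∈ Aut B)
    (h : ∀ m ≤ M, ∀ s ∈ C.S m, tpow g m s = s) {n : ℕ} {t : (Fin n → ι) → K}
    (ht : t ∈ (C.genS M).S n) : tpow g n t = t :=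
  (mem_fixSys hB hg).1 (CSys.mem_genS.1 ht (fixSys hB hg) fun m hm s hs =>
    (mem_fixSys hB hg).2 (h m hm s hs))

/-- A multiplicative map on the tensors of a system is given by a matrix. -/
theorem exists_matrix_of [IsAlgClosed K] (T : TSys K ι)
    (F : ∀ n, ((Fin n → ι) → K) → ((Fin n → ι) → K))
    (hadd : ∀ n, ∀ s ∈ T.S n, ∀ t ∈ T.S n, F n (s + t) = F n s + F n t)
    (hsmul : ∀ n (c : K), ∀ s ∈ T.S n, F n (c • s) = c • F n s)
    (hperm : ∀ n (σ : Equiv.Perm (Fin n)), ∀ t ∈ T.S n,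
      F n (fun J => t (J ∘ σ)) = fun I => F n t (I ∘ σ))
    (hmul : ∀ m n, ∀ s ∈ T.S m, ∀ t ∈ T.S n, F (m + n) (tmul s t) = tmul (F m s) (F n t))
    (hone : F 0 (fun _ => 1) = fun _ => 1) :
    ∃ g : Matrix ι ι K, ∀ n, ∀ s ∈ T.S n, tpow g n s = F n s := by
  let E : MSys T.S :=
    { P := fun n =>
        { toFun := fun t => F n (T.p n t)
          map_add' := fun s t => by
            rw [map_add, hadd n _ (T.p_mem n s) _ (T.p_mem n t)]
          map_smul' := fun c t => by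
            rw [map_smul, hsmul n c _ (T.p_mem n t)]
            rfl }
      perm := fun n σ t I => by
        change F n (T.p n fun J => t (J ∘ σ)) I = F n (T.p n t) (I ∘ σ)
        have h1 : T.p n (fun J => t (J ∘ σ)) = fun I => T.p n t (I ∘ σ) :=
          funext fun I => T.p_perm n σ t I
        rw [h1, hperm n σ _ (T.p_mem n t)]
      mul := fun m n s t hs => by
        change F (m + n) (T.p (m + n) (tmul s t)) = tmul (F m (T.p m s)) (F n (T.p n t))
        rw [T.p_tmul m n s t hs, T.p_id m s hs, hmul m n s hs _ (T.p_mem n t)]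
      one := by
        change F 0 (T.p 0 fun _ => 1) = _
        rw [T.p_id 0 _ T.one, hone] }
  obtain ⟨g, hg⟩ := E.exists_matrix
  refine ⟨g, fun n s hs => ?_⟩
  rw [hg n s hs]
  change F n (T.p n s) = F n s
  rw [T.p_id n s hs]

end Field

end Pool.Agent.Q55.Ke
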