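import Pool.Agent.Q55.Ke.Star

/-!
# Bases and rational tensors
-/

open CategoryTheory AlgebraicGeometry TensorProduct

set_option linter.unusedSectionVars false

universe u v

namespace Pool.Agent.Q55.Ke

open Module Matrix
open Pool.Agent.H914 Pool.Agent.H914.VarClass Pool.Agent.H914.VarClass.Obj
  Pool.Agent.H914.WeilCohomology
open Pool.Agent.Y133.Half Pool.Agent.Q60.ED Pool.Agent.Q60.TD Pool.Agent.H281R3.HT
  Pool.Agent.H447 Pool.Agent.Q55 Pool.Agent.Q55.Hs Pool.Agent.Q60.NP
open Pool.Agent.W552 (AS AOp RatSub Fr Sy st)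
open Pool.Agent.Q60.HD (wd wd_zero wd_succ wd_map wd_prj wd_append wd_PH wb_PH sum_append' wb_xp)

variable {k : Type u} [Field k] {𝒱 : VarClass k} {ops : CycleOps 𝒱}

variable {W : WeilCohomology.{u, 0} ops} {X Y Z : 𝒱.Obj} {ι : Type} [Fintype ι] [DecidableEq ι]
  {e : Basis ι W.K (W.H X)} {D : X.Cycles} {a : ι → ℕ}

/-- The signs of the parities. -/
def sgm (K : Type) [Field K] (a : ι → ℕ) : Matrix ι ι K := diagonal fun i => (-1 : K) ^ a i

lemma gramB_symm (he : ∀ j, e j ∈ PH W X (a j)) {f : Module.End W.K (W.H X)}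
    (G : Sy W X D f) (i j : ι) : gramB e D f i j = (-1 : W.K) ^ a j * gramB e D f j i := by
  change Pool.Agent.W552.bf W X D f (e i) (e j) = _ * Pool.Agent.W552.bf W X D f (e j) (e i)
  rw [G, PH.par (he j), map_smul, LinearMap.smul_apply, smul_eq_mul]

lemma gramB_par (he : ∀ j, e j ∈ PH W X (a j)) {f : Module.End W.K (W.H X)}
    (G : Sy W X D f) (i j : ι) :
    (-1 : W.K) ^ a i * gramB e D f i j = gramB e D f i j * (-1 : W.K) ^ a j := by
  have h1 := gramB_symm he G i j
  have h2 := gramB_symm he G j i
  have h3 : (-1 : W.K) ^ a i * (-1 : W.K) ^ a i = 1 := by rw [← mul_pow]; simp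
  rw [h2, ← mul_assoc] at h1
  calc (-1 : W.K) ^ a i * gramB e D f i j =
      (-1 : W.K) ^ a i * ((-1 : W.K) ^ a j * (-1 : W.K) ^ a i * gramB e D f i j) := by rw [← h1]
    _ = ((-1 : W.K) ^ a i * (-1 : W.K) ^ a i) * (gramB e D f i j * (-1 : W.K) ^ a j) := by ring
    _ = _ := by rw [h3, one_mul]

lemma sgm_gramB (he : ∀ j, e j ∈ PH W X (a j)) {f : Module.End W.K (W.H X)}
    (G : Sy W X D f) : sgm W.K a * gramB e D f = gramB e D f * sgm W.K a := by
  ext i j
  rw [sgm, diagonal_mul, mul_diagonal, gramB_par he G]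

lemma gramB_transpose (he : ∀ j, e j ∈ PH W X (a j)) {f : Module.End W.K (W.H X)}
    (G : Sy W X D f) : (gramB e D f)ᵀ = gramB e D f * sgm W.K a := by
  ext i j
  rw [sgm, mul_diagonal, transpose_apply, gramB_symm he G j i, gramB_par he G]

lemma sgm_sq (K : Type) [Field K] (a : ι → ℕ) : sgm K a * sgm K a = 1 := by
  rw [sgm, diagonal_mul_diagonal, ← diagonal_one]
  congr 1
  funext i
  rw [← mul_pow]
  simp

/-- Changes of bases. -/
lemma exists_cob (he : ∀ j, e j ∈ PH W X (a j)) {P : Matrix ι ι W.K} (hP : IsUnit P)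
    (hs : sgm W.K a * P = P * sgm W.K a) :
    ∃ e' : Basis ι W.K (W.H X), (∀ j, e' j ∈ PH W X (a j)) ∧
      ∀ f, gramB e' D f = Pᵀ * gramB e D f * P := by
  have hPd : IsUnit P.det := (Matrix.isUnit_iff_isUnit_det _).1 hP
  set φ := Matrix.toLinearEquiv e P hPd with hφ
  have hφe : ∀ j, φ (e j) = ∑ i, P i j • e i := fun j => Matrix.toLin_self e e P j
  refine ⟨e.map φ, fun j => ?_, fun f => ?_⟩
  · rw [Basis.map_apply, hφe]
    refine Submodule.sum_mem _ fun i _ => ?_
    by_cases h : a i % 2 = a j % 2
    · exact Submodule.smul_mem _ _ (PH.congr h (he i))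
    · have h1 : P i j = 0 := by
        have h2 := congrFun (congrFun hs i) j
        rw [sgm, diagonal_mul, mul_diagonal] at h2
        have h3 : (-1 : W.K) ^ a i = -(-1 : W.K) ^ a j := by
          rcases Nat.even_or_odd (a i) with h4 | h4 <;> rcases Nat.even_or_odd (a j) with h5 | h5
          · exact absurd ((Nat.even_iff.1 h4).trans (Nat.even_iff.1 h5).symm) h
          · rw [h4.neg_one_pow, h5.neg_one_pow, neg_neg]
          · rw [h4.neg_one_pow, h5.neg_one_pow]
          · exact absurd ((Nat.odd_iff.1 h4).trans (Nat.odd_iff.1 h5).symm) h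
        have h6 : (-1 : W.K) ^ a j ≠ 0 := pow_ne_zero _ (neg_ne_zero.2 one_ne_zero)
        have h7 : (2 * (-1 : W.K) ^ a j) * P i j = 0 := by
          rw [h3] at h2
          linear_combination -h2
        exact (mul_eq_zero.1 h7).resolve_left (mul_ne_zero two_ne_zero h6)
      rw [h1, zero_smul]
      exact Submodule.zero_mem _
  · ext i j
    change Pool.Agent.W552.bf W X D f (e.map φ i) (e.map φ j) = _
    rw [Basis.map_apply, Basis.map_apply, hφe, hφe, map_sum (Pool.Agent.W552.bf W X D f),
      LinearMap.sum_apply, Matrix.mul_apply]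
    simp only [Matrix.mul_apply, Finset.sum_mul, map_sum, map_smul, LinearMap.smul_apply,
      smul_eq_mul, transpose_apply]
    rw [Finset.sum_comm]
    refine Finset.sum_congr rfl fun l _ => Finset.sum_congr rfl fun m _ => ?_
    change _ = P m i * Pool.Agent.W552.bf W X D f (e m) (e l) * P l j
    ring

variable (e) in
/-- The tensors of the algebraic classes are spanned by the rational tensors. -/
lemma crdK_span (n : ℕ) : crdK e (algSys W) n = Submodule.span W.K {t | RT e n t} := by
  apply le_antisymm
  · intro t ht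
    cases n with
    | zero =>
      have h1 : t = t default • fun _ => (1 : W.K) := by
        funext I
        rw [Pi.smul_apply, smul_eq_mul, mul_one]
        exact congrArg t (Subsingleton.elim _ _)
      rw [h1]
      exact Submodule.smul_mem _ _ (Submodule.subset_span (RT.one e))
    | succ n =>
      rw [mem_crdK_succ] at ht
      have h1 : ∀ c ∈ algSpan W (pw X n), tn e n c ∈ Submodule.span W.K {t | RT e (n + 1) t} := by
        intro c hc
        induction hc using Submodule.span_induction with
        | mem x hx =>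
          obtain ⟨j, hj⟩ := Set.mem_iUnion.1 hx
          refine Submodule.subset_span ?_
          change RT e (n + 1) _
          rw [RT_succ, clsK_tn]
          exact AS.of hj
        | zero =>
          have h2 : tn e n (0 : W.H (pw X n)) = 0 := map_zero _
          rw [h2]
          exact Submodule.zero_mem _
        | add x y _ _ hx hy =>
          have h2 : tn e n (x + y) = tn e n x + tn e n y := map_add _ _ _
          rw [h2]
          exact Submodule.add_mem _ hx hy
        | smul c x _ hx =>
          have h2 : tn e n (c • x) = c • tn e n x := map_smul _ _ _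
          rw [h2]
          exact Submodule.smul_mem _ _ hx
      have h2 := h1 _ ht
      rwa [tn_cls] at h2
  · refine Submodule.span_le.2 fun t ht => ?_
    intro Z f
    exact AS.mem_algSpan (ht Z f)

/-- The form is nondegenerate in low degrees. -/
lemma gramB_nd {B : Matrix ι ι W.K} {n : ℕ} (hpc : ∀ n, ∃ g, Pc e D B n g)
    (hnum : ∀ m, n = m + 1 → HomEqNum W (pw X m)) :
    ∀ v ∈ crdK e (algSys W) n, (∀ w ∈ crdK e (algSys W) n,
      Pool.Agent.Q60.ED.bf (TP B n) v w = 0) → v = 0 := by
  intro v hv h
  cases n with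
  | zero =>
    have h1 := h (fun _ => 1) (mem_crdK_zero e _)
    rw [bf_zero, mul_one] at h1
    funext I
    rw [Pi.zero_apply, ← h1]
    exact congrArg v (Subsingleton.elim _ _)
  | succ n =>
    obtain ⟨g, G⟩ := hpc n
    have hst : ∀ c ∈ algSpan W (pw X n), st W (pw X n) (pwDiv ops D n) g c ∈
        algSpan W (pw X n) := by
      intro c hc
      induction hc using Submodule.span_induction with
      | mem x hx =>
        obtain ⟨j, hj⟩ := Set.mem_iUnion.1 hx
        exact AS.mem_algSpan (G.pz.fr.st_AS (AS.of hj))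
      | zero => rw [map_zero]; exact Submodule.zero_mem _
      | add x y _ _ hx hy => rw [map_add]; exact Submodule.add_mem _ hx hy
      | smul c x _ hx => rw [map_smul]; exact Submodule.smul_mem _ _ hx
    have h1 : clsK e (prj X n) v ∈ (algSys W).Num (pw X n) := by
      refine ⟨(mem_crdK_succ (e := e)).1 hv, fun c hc => ?_⟩
      have h2 := h (tn e n (st W (pw X n) (pwDiv ops D n) g c))
        ((mem_crdK_succ (e := e)).2 (by rw [clsK_tn]; exact hst c hc))
      rw [← G.bf, clsK_tn] at h2
      have h3 : Pool.Agent.W552.bf W (pw X n) (pwDiv ops D n) g (clsK e (prj X n) v)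
          (st W (pw X n) (pwDiv ops D n) g c) = W.tr (pw X n) (clsK e (prj X n) v * c) := by
        rw [Pool.Agent.W552.bf_apply, G.pz.st_st]
      rw [h3] at h2
      exact h2
    rw [(homEqNum_iff _).1 (hnum n rfl), Submodule.mem_bot] at h1
    apply clsK_inj e n
    rw [h1, clsK_zero]

end Pool.Agent.Q55.Ke
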