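import Pool.Agent.Q55.Ke.Sq

/-!
# Limits of matrices which preserve a form, and vectors of minimal length
-/

set_option linter.unusedSectionVars false

open scoped ComplexOrder
open Filter Topology

namespace Pool.Agent.Q55.Ke

open Module Matrix Pool.Agent.Q60.ED Pool.Agent.Q60.NP

/-- Bounded sequences. -/
def Bd (a : ℕ → ℂ) : Prop := ∃ c : ℝ, ∀ j, ‖a j‖ ≤ c

namespace Bd

variable {a b : ℕ → ℂ}

lemma const (z : ℂ) : Bd fun _ => z := ⟨‖z‖, fun _ => le_rfl⟩

lemma add (ha : Bd a) (hb : Bd b) : Bd fun j => a j + b j := by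
  obtain ⟨c, hc⟩ := ha
  obtain ⟨d, hd⟩ := hb
  exact ⟨c + d, fun j => (norm_add_le _ _).trans (add_le_add (hc j) (hd j))⟩

lemma mul (ha : Bd a) (hb : Bd b) : Bd fun j => a j * b j := by
  obtain ⟨c, hc⟩ := ha
  obtain ⟨d, hd⟩ := hb
  refine ⟨c * d, fun j => ?_⟩
  rw [norm_mul]
  exact mul_le_mul (hc j) (hd j) (norm_nonneg _) ((norm_nonneg _).trans (hc j))

lemma sum {κ : Type*} (s : Finset κ) {a : κ → ℕ → ℂ} (h : ∀ k ∈ s, Bd (a k)) :
    Bd fun j => ∑ k ∈ s, a k j := by
  classical
  induction s using Finset.induction_on with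
  | empty => simpa using const 0
  | insert k s hk ih =>
    simp only [Finset.sum_insert hk]
    exact (h k (Finset.mem_insert_self _ _)).add (ih fun l hl => h l (Finset.mem_insert_of_mem hl))

end Bd

/-- The ultrafilter. -/
noncomputable def ul : Ultrafilter ℕ := hyperfilter ℕ

/-- The limit along the ultrafilter. -/
noncomputable def ulim (a : ℕ → ℂ) : ℂ := limUnder (ul : Filter ℕ) a

lemma Bd.tendsto {a : ℕ → ℂ} (ha : Bd a) : Tendsto a ul (𝓝 (ulim a)) := by
  obtain ⟨c, hc⟩ := ha
  refine tendsto_nhds_limUnder ?_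
  have h1 : Metric.closedBall (0 : ℂ) c ∈ ul.map a := by
    rw [Ultrafilter.mem_map]
    exact Filter.univ_mem' fun j => by
      rw [Set.mem_preimage, mem_closedBall_zero_iff]
      exact hc j
  obtain ⟨x, -, hx⟩ := (isCompact_closedBall (0 : ℂ) c).ultrafilter_le_nhds' (ul.map a) h1
  exact ⟨x, hx⟩

lemma ulim_eq {a : ℕ → ℂ} {x : ℂ} (h : Tendsto a ul (𝓝 x)) : ulim a = x := h.limUnder_eq

variable {ι : Type} [Fintype ι] [DecidableEq ι] {B : Matrix ι ι ℂ}

/-- The tensors with bounded orbits. -/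
noncomputable def bddSys (hB : B.det ≠ 0) {g : ℕ → Matrix ι ι ℂ} (hg : ∀ j, g j ∈ Aut B) :
    CSys B where
  S n :=
    { carrier := {t | ∀ I, Bd fun j => tpow (g j) n t I}
      add_mem' := fun {s t} hs ht I => by
        have h1 : (fun j => tpow (g j) n (s + t) I) =
            fun j => tpow (g j) n s I + tpow (g j) n t I := by
          funext j
          rw [map_add, Pi.add_apply]
        rw [h1]
        exact (hs I).add (ht I)
      zero_mem' := fun I => by
        have h1 : (fun j => tpow (g j) n 0 I) = fun _ => 0 := by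
          funext j
          rw [map_zero, Pi.zero_apply]
        rw [h1]
        exact Bd.const 0
      smul_mem' := fun c t ht I => by
        have h1 : (fun j => tpow (g j) n (c • t) I) = fun j => c * tpow (g j) n t I := by
          funext j
          rw [map_smul, Pi.smul_apply, smul_eq_mul]
        rw [h1]
        exact (Bd.const c).mul (ht I) }
  one I := by
    simp only [tpow_zero]
    exact Bd.const 1
  mul {m n s t} hs ht I := by
    simp only [tpow_tmul, tmul]
    exact (hs _).mul (ht _)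
  perm {n} σ t ht I := by
    simp only [tpow_perm]
    exact ht _
  contr {m n s t} hs ht I := by
    have h1 : ∀ j, tpow (g j) n (fun J => ∑ I, ∑ I', s I * TP B m I I' * t (Fin.append I' J)) I =
        ∑ L, ∑ L', tpow (g j) m s L * TP B m L L' * tpow (g j) (m + n) t (Fin.append L' I) :=
      fun j => congrFun (tpow_ctr hB (hg j) s t) I
    simp only [h1]
    exact Bd.sum _ fun L _ => Bd.sum _ fun L' _ => ((hs L).mul (Bd.const _)).mul (ht _)
  om I := by
    have h1 : ∀ j, tpow (g j) 2 (fun w : Fin 2 → ι => B⁻¹ (w 0) (w 1)) I = om B I := fun j =>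
      congrFun ((Aut_om hB).1 (hg j)) I
    simp only [h1]
    exact Bd.const _

/-- The limit of a sequence of matrices on the tensors of a system. -/
theorem exists_lim (hB : B.det ≠ 0) {C : CSys B} {M : ℕ} {T : TSys ℂ ι}
    (hT : T.S = (C.genS M).S) {g : ℕ → Matrix ι ι ℂ} (hg : ∀ j, g j ∈ Aut B)
    (hb : ∀ m ≤ M, ∀ s ∈ C.S m, ∀ I, Bd fun j => tpow (g j) m s I) :
    ∃ h ∈ Aut B, ∀ n, ∀ t ∈ T.S n, ∀ I,
      Tendsto (fun j => tpow (g j) n t I) ul (𝓝 (tpow h n t I)) := by
  have hbd : ∀ n, ∀ t ∈ T.S n, ∀ I, Bd fun j => tpow (g j) n t I := by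
    intro n t ht
    rw [hT] at ht
    exact CSys.mem_genS.1 ht (bddSys hB hg) fun m hm s hs => hb m hm s hs
  have hex : ∃ h : Matrix ι ι ℂ, ∀ n, ∀ s ∈ T.S n,
      tpow h n s = fun I => ulim fun j => tpow (g j) n s I := by
    refine exists_matrix_of T (fun n t I => ulim fun j => tpow (g j) n t I) ?_ ?_ ?_ ?_ ?_
    · intro n s hs t ht
      funext I
      refine ulim_eq ?_
      simp only [map_add, Pi.add_apply]
      exact (hbd n s hs I).tendsto.add (hbd n t ht I).tendsto
    · intro n c s hs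
      funext I
      refine ulim_eq ?_
      simp only [map_smul, Pi.smul_apply]
      exact (hbd n s hs I).tendsto.const_smul c
    · intro n σ t ht
      funext I
      simp only [tpow_perm]
    · intro m n s hs t ht
      funext I
      refine ulim_eq ?_
      simp only [tpow_tmul, tmul]
      exact (hbd m s hs _).tendsto.mul (hbd n t ht _).tendsto
    · funext I
      refine ulim_eq ?_
      simp only [tpow_zero]
      exact tendsto_const_nhds
  obtain ⟨h, hh⟩ := hex
  have hlim : ∀ n, ∀ t ∈ T.S n, ∀ I,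
      Tendsto (fun j => tpow (g j) n t I) ul (𝓝 (tpow h n t I)) := by
    intro n t ht I
    rw [hh n t ht]
    exact (hbd n t ht I).tendsto
  refine ⟨h, ?_, hlim⟩
  rw [Aut_om hB]
  have hom : om B ∈ T.S 2 := by
    rw [hT]
    exact (C.genS M).om
  funext I
  have h1 := hlim 2 _ hom I
  have h2 : (fun j => tpow (g j) 2 (om B) I) = fun _ => om B I := by
    funext j
    rw [(Aut_om hB).1 (hg j)]
  rw [h2] at h1
  exact tendsto_nhds_unique h1 tendsto_const_nhds

/-- The total length of the translates of a finite family of tensors. -/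
noncomputable def len {κ : Type} [Fintype κ] {d : κ → ℕ} (x : ∀ k, (Fin (d k) → ι) → ℂ)
    (g : Matrix ι ι ℂ) : ℝ := ∑ k, nsq (tpow g (d k) (x k))

/-- **Translates of minimal length.** -/
theorem exists_min (hB : B.det ≠ 0) {C : CSys B} {M : ℕ} {T : TSys ℂ ι}
    (hT : T.S = (C.genS M).S) {κ : Type} [Fintype κ] {d : κ → ℕ}
    (x : ∀ k, (Fin (d k) → ι) → ℂ) (hx : ∀ k, x k ∈ T.S (d k))
    (hspan : ∀ m ≤ M, ∀ D : CSys B, (∀ k, x k ∈ D.S (d k)) → C.S m ≤ D.S m) :
    ∃ h ∈ Aut B, ∀ g ∈ Aut B, len x h ≤ len x g := by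
  have hnn : ∀ g : Matrix ι ι ℂ, 0 ≤ len x g := fun g =>
    Finset.sum_nonneg fun _ _ => nsq_nonneg _
  set A : Set ℝ := (fun g => len x g) '' Aut B with hA
  have hne : A.Nonempty := ⟨_, 1, one_mem_Aut, rfl⟩
  have hbb : BddBelow A := ⟨0, by rintro _ ⟨g, -, rfl⟩; exact hnn g⟩
  obtain ⟨u, hu1, hu2, hu3⟩ := exists_seq_tendsto_sInf hne hbb
  choose g hg hgu using hu3
  -- bounded lengths
  obtain ⟨c, hc⟩ : ∃ c : ℝ, ∀ j, len x (g j) ≤ c := by
    refine ⟨u 0, fun j => ?_⟩
    have h1 : len x (g j) = u j := hgu j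
    rw [h1]
    exact hu1 (Nat.zero_le j)
  have hb0 : ∀ k I, Bd fun j => tpow (g j) (d k) (x k) I := by
    intro k I
    refine ⟨Real.sqrt c, fun j => ?_⟩
    rw [← Real.sqrt_sq (norm_nonneg _)]
    refine Real.sqrt_le_sqrt ?_
    rw [← Complex.normSq_eq_norm_sq]
    calc Complex.normSq (tpow (g j) (d k) (x k) I) ≤ nsq (tpow (g j) (d k) (x k)) :=
          Finset.single_le_sum (f := fun I => Complex.normSq (tpow (g j) (d k) (x k) I))
            (fun _ _ => Complex.normSq_nonneg _) (Finset.mem_univ I)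
      _ ≤ len x (g j) := Finset.single_le_sum (f := fun k => nsq (tpow (g j) (d k) (x k)))
            (fun _ _ => nsq_nonneg _) (Finset.mem_univ k)
      _ ≤ c := hc j
  obtain ⟨h, hh, hlim⟩ := exists_lim hB hT hg fun m hm s hs =>
    hspan m hm (bddSys hB hg) (fun k I => hb0 k I) hs
  have hlen : Tendsto (fun j => len x (g j)) ul (𝓝 (len x h)) := by
    refine tendsto_finsetSum _ fun k _ => tendsto_finsetSum _ fun I _ => ?_
    exact (Complex.continuous_normSq.tendsto _).comp (hlim (d k) (x k) (hx k) I)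
  have hlen2 : Tendsto (fun j => len x (g j)) ul (𝓝 (sInf A)) := by
    have h1 : (fun j => len x (g j)) = u := funext hgu
    rw [h1]
    refine hu2.mono_left ?_
    have h2 : (ul : Filter ℕ) ≤ Filter.cofinite := Filter.hyperfilter_le_cofinite
    rwa [Nat.cofinite_eq_atTop] at h2
  have heq : len x h = sInf A := tendsto_nhds_unique hlen hlen2
  refine ⟨h, hh, fun g' hg' => ?_⟩
  rw [heq]
  exact csInf_le hbb ⟨g', hg', rfl⟩

end Pool.Agent.Q55.Ke
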