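import Pool.Agent.Q55.Ke.Thm

/-!
# Positivity of generated tensors: the matrix which measures the failure of positivity
-/

set_option linter.unusedSectionVars false

open scoped ComplexOrder

namespace Pool.Agent.Q55.Ke

open Module Matrix Pool.Agent.Q60.ED Pool.Agent.Q60.NP
open Pool.Agent.W552 (RatSub)

variable {ι : Type} [Fintype ι] [DecidableEq ι] {B : Matrix ι ι ℂ}

/-- A unitary operator whose hermitian products on an invariant subspace are those of a positive
form is the identity on the subspace. -/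
lemma unit_pos {n N : ℕ} (f : ((Fin n → ι) → ℂ) →ₗ[ℂ] ((Fin n → ι) → ℂ))
    (hf : ∀ v w, ip (f v) (f w) = ip v w) (e : Fin N → (Fin n → ι) → ℂ) (w : Fin N → ℚ)
    (hw : ∀ k, 0 < w k) (he : ∀ k l, ip (f (e k)) (e l) = if k = l then (w k : ℂ) else 0)
    (hst : ∀ k, f (e k) ∈ Submodule.span ℂ (Set.range e)) (k : Fin N) : f (e k) = e k := by
  classical
  set U := Submodule.span ℂ (Set.range e) with hU
  have hstU : ∀ v ∈ U, f v ∈ U := by
    intro v hv
    induction hv using Submodule.span_induction with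
    | mem v hv =>
      obtain ⟨k, rfl⟩ := hv
      exact hst k
    | zero => rw [map_zero]; exact Submodule.zero_mem _
    | add a b _ _ ha hb => rw [map_add]; exact Submodule.add_mem _ ha hb
    | smul c a _ ha => rw [map_smul]; exact Submodule.smul_mem _ _ ha
  have hval : ∀ (a b : Fin N → ℂ), ip (f (∑ k, a k • e k)) (∑ l, b l • e l) =
      ∑ k, starRingEnd ℂ (a k) * b k * w k := by
    intro a b
    have h1 : ∀ (s : Finset (Fin N)) (x : (Fin n → ι) → ℂ),
        ip (∑ k ∈ s, a k • f (e k)) x = ∑ k ∈ s, starRingEnd ℂ (a k) * ip (f (e k)) x := by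
      intro s x
      induction s using Finset.induction_on with
      | empty => simp [ip_zero_left]
      | insert k s hk ih => rw [Finset.sum_insert hk, Finset.sum_insert hk, ip_add_left,
          ip_smul_left, ih]
    have h2 : ∀ (s : Finset (Fin N)) (x : (Fin n → ι) → ℂ),
        ip x (∑ l ∈ s, b l • e l) = ∑ l ∈ s, b l * ip x (e l) := by
      intro s x
      induction s using Finset.induction_on with
      | empty => simp [ip_zero_right]
      | insert k s hk ih => rw [Finset.sum_insert hk, Finset.sum_insert hk, ip_add_right,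
          ip_smul_right, ih]
    have h3 : f (∑ k, a k • e k) = ∑ k, a k • f (e k) := by
      rw [map_sum]
      exact Finset.sum_congr rfl fun k _ => map_smul _ _ _
    rw [h3, h1]
    refine Finset.sum_congr rfl fun k _ => ?_
    rw [h2, Finset.sum_eq_single k]
    · rw [he, if_pos rfl, mul_assoc]
    · intro l _ hl
      rw [he, if_neg (Ne.symm hl), mul_zero]
    · intro h; exact absurd (Finset.mem_univ _) h
  have hherm : ∀ v ∈ U, ∀ v' ∈ U, ip (f v) v' = ip v (f v') := by
    intro v hv v' hv'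
    obtain ⟨a, rfl⟩ := (Submodule.mem_span_range_iff_exists_fun ℂ).1 hv
    obtain ⟨b, rfl⟩ := (Submodule.mem_span_range_iff_exists_fun ℂ).1 hv'
    rw [← conj_ip (f (∑ k, b k • e k)), hval, hval, map_sum]
    refine Finset.sum_congr rfl fun k _ => ?_
    rw [map_mul, map_mul, Complex.conj_conj, map_ratCast]
    ring
  have hpos : ∀ v ∈ U, 0 ≤ (ip (f v) v).re := by
    intro v hv
    obtain ⟨a, rfl⟩ := (Submodule.mem_span_range_iff_exists_fun ℂ).1 hv
    rw [hval, Complex.re_sum]
    refine Finset.sum_nonneg fun k _ => ?_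
    rw [mul_comm (starRingEnd ℂ (a k)), Complex.mul_conj]
    have h1 : (((Complex.normSq (a k) : ℝ) : ℂ) * (w k : ℂ)).re =
        Complex.normSq (a k) * (w k : ℝ) := by
      have h2 : (w k : ℂ) = ((w k : ℝ) : ℂ) := by push_cast; rfl
      rw [h2, ← Complex.ofReal_mul, Complex.ofReal_re]
    rw [h1]
    exact mul_nonneg (Complex.normSq_nonneg _) (by exact_mod_cast (hw k).le)
  have hek : e k ∈ U := Submodule.subset_span ⟨k, rfl⟩
  have hinv : f (f (e k)) = e k := by
    have h1 : f (f (e k)) - e k ∈ U := Submodule.sub_mem _ (hstU _ (hstU _ hek)) hek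
    have h2 : ∀ v ∈ U, ip (f (f (e k)) - e k) v = 0 := by
      intro v hv
      rw [ip_sub_left, hherm _ (hstU _ hek) _ hv, hf, sub_self]
    have h3 := h2 _ h1
    rw [ip_self] at h3
    have h4 : nsq (f (f (e k)) - e k) = 0 := by exact_mod_cast h3
    exact sub_eq_zero.1 (eq_zero_of_nsq h4.le)
  have h1 : f (f (e k) - e k) = -(f (e k) - e k) := by
    rw [map_sub, hinv]
    abel
  have h2 := hpos _ (Submodule.sub_mem _ (hstU _ hek) hek)
  have h3 : ip (-(f (e k) - e k)) (f (e k) - e k) = -((nsq (f (e k) - e k) : ℝ) : ℂ) := by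
    have h4 : -(f (e k) - e k) = (-1 : ℂ) • (f (e k) - e k) := by simp
    rw [h4, ip_smul_left, ip_self]
    simp
  rw [h1, h3, Complex.neg_re, Complex.ofReal_re] at h2
  exact sub_eq_zero.1 (eq_zero_of_nsq (by linarith))

/-- **The abstract theorem.** -/
theorem exists_k (hB : Bᴴ * B = 1) (R : RS B) {L M : ℕ} (hLM : L ≤ M) {T : TSys ℂ ι}
    (hT : T.S = (R.span.genS M).S)
    (hnd : ∀ n, ∀ v ∈ T.S n, (∀ w ∈ T.S n, bf (TP B n) v w = 0) → v = 0)
    (hpos : ∀ n ≤ L, ∀ r, R.R n r → r ≠ 0 → ∃ q : ℚ, 0 < q ∧ bf (TP B n) r r = q) :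
    ∃ k ∈ Aut B, (∀ n ≤ L, ∀ t, R.R n t → tpow k n t = t) ∧
      ∀ n r, R.R n r → r ∈ T.S n → tpow k n r = r → r ≠ 0 → 0 < (bf (TP B n) r r).re := by
  have hBd := det_of_unitary hB
  obtain ⟨g, hg, k, hk, hkk, hkr, hkT⟩ := exists_k0 hB R hT hnd
  have hgd := det_Aut hBd hg
  refine ⟨g⁻¹ * k * g, mul_mem_Aut (mul_mem_Aut (inv_mem_Aut hBd hg) hk) hg, ?_, ?_⟩
  · intro n hn t ht
    have hTn : T.S n = R.span.S n := by
      rw [hT]
      exact CSys.genS_eq (hn.trans hLM)
    have hRT : ∀ r, R.R n r → r ∈ T.S n := fun r hr => by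
      rw [hTn]
      exact Submodule.subset_span hr
    obtain ⟨N, e, w, he1, he2, he3, he4⟩ := Pool.Agent.W552.exists_ratBasis (R.rat n)
      (bfB (TP B n)) (fun x y hx hy => R.bf_rat hx hy) (fun x y hx hy => R.symm hx hy)
      (fun x hx hx0 => hpos n hn x hx hx0)
    have hspan : ∀ x, R.R n x → ∃ c : Fin N → ℂ, x = ∑ l, c l • e l := by
      intro x hx
      obtain ⟨r, hr⟩ := he4 x (Submodule.subset_span hx) fun l => R.bf_rat hx (he1 l)
      exact ⟨fun l => r l, hr⟩
    have hspan' : T.S n = Submodule.span ℂ (Set.range e) := by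
      rw [hTn]
      apply le_antisymm
      · rw [RS.span_S]
        refine Submodule.span_le.2 fun x hx => ?_
        obtain ⟨c, rfl⟩ := hspan x hx
        exact Submodule.sum_mem _ fun l _ => Submodule.smul_mem _ _
          (Submodule.subset_span ⟨l, rfl⟩)
      · rw [RS.span_S]
        refine Submodule.span_le.2 ?_
        rintro _ ⟨l, rfl⟩
        exact Submodule.subset_span (he1 l)
    have hfix : ∀ l, tpow k n (tpow g n (e l)) = tpow g n (e l) := by
      refine unit_pos (tpow k n) (fun v w => ?_) (fun l => tpow g n (e l)) w he2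
        (fun a b => ?_) (fun l => ?_)
      · rw [ip_tpow, ← tpow_mul, hkk, tpow_one]
      · rw [hkr n _ (he1 a) (hRT _ (he1 a)), ip_J0, bf_tpow hg]
        exact he3 a b
      · have h1 := hkT n (e l) (hRT _ (he1 l))
        rw [hspan'] at h1
        obtain ⟨c, hc⟩ := (Submodule.mem_span_range_iff_exists_fun ℂ).1 h1
        have h2 := congrArg (tpow g n) hc
        rw [tpow_tpow_inv hgd, map_sum] at h2
        rw [← h2]
        refine Submodule.sum_mem _ fun j _ => ?_
        rw [map_smul]
        exact Submodule.smul_mem _ _ (Submodule.subset_span ⟨j, rfl⟩)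
    obtain ⟨c, rfl⟩ := hspan t ht
    rw [map_sum]
    refine Finset.sum_congr rfl fun l _ => ?_
    rw [map_smul, tpow_mul, tpow_mul, hfix, tpow_inv_tpow hgd]
  · intro n r hr hrT hkr' hr0
    have h1 : tpow k n (tpow g n r) = tpow g n r := by
      rw [tpow_mul, tpow_mul] at hkr'
      have h2 := congrArg (tpow g n) hkr'
      rwa [tpow_tpow_inv hgd] at h2
    have h2 : bf (TP B n) r r = ((nsq (tpow g n r) : ℝ) : ℂ) := by
      rw [← bf_tpow hg, ← ip_J0, ← hkr n r hr hrT, h1, ip_self]
    rw [h2, Complex.ofReal_re]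
    refine nsq_pos fun h0 => hr0 ?_
    have h3 := congrArg (tpow g⁻¹ n) h0
    rwa [tpow_inv_tpow hgd, map_zero] at h3

end Pool.Agent.Q55.Ke
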