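import Pool.Agent.W552.MatA

/-!
# Bases in which a form which is symmetric up to signs is unitary
-/

set_option linter.unusedSectionVars false

open scoped ComplexOrder

namespace Pool.Agent.Q55.Ke

open Matrix Polynomial Pool.Agent.W552

variable {I : Type} [Fintype I] [DecidableEq I]

/-- **Unitary bases.** -/
theorem exists_unitary {B ε : Matrix I I ℂ} (hB : IsUnit B) (hε2 : ε * ε = 1)
    (hεr : cj ε = ε) (hBT : Bᵀ = B * ε) (hεB : ε * B = B * ε) :
    ∃ P : Matrix I I ℂ, IsUnit P ∧ ε * P = P * ε ∧ (Pᵀ * B * P)ᴴ * (Pᵀ * B * P) = 1 := by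
  classical
  have hεBr : ε * cj B = cj B * ε := by
    have := congrArg cj hεB
    rwa [cj_mul, cj_mul, hεr] at this
  have hBH : Bᴴ = cj B * ε := by
    have h1 := congrArg cj hBT
    rw [cj_mul, hεr] at h1
    rw [← h1]
    ext i j
    simp [cj, conjTranspose_apply]
  have hcB : cj B = Bᴴ * ε := by
    rw [hBH, Matrix.mul_assoc, hε2, Matrix.mul_one]
  have hεBH : ε * Bᴴ = Bᴴ * ε := by
    rw [hBH, ← Matrix.mul_assoc, hεBr]
  obtain ⟨K1, hK1⟩ : ∃ K1, K1 = B * Bᴴ := ⟨_, rfl⟩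
  have hinj : Function.Injective (Bᴴ).mulVec := by
    obtain ⟨Bi, hBi⟩ := hB.exists_right_inv
    intro x y hxy
    have h1 : Biᴴ * Bᴴ = 1 := by
      rw [← conjTranspose_mul, hBi, conjTranspose_one]
    have := congrArg (Biᴴ.mulVec) hxy
    simpa [mulVec_mulVec, h1] using this
  have hK1p : K1.PosDef := by
    have h1 := (PosDef.one (n := I) (R := ℂ)).conjTranspose_mul_mul_same hinj
    rw [Matrix.mul_one, conjTranspose_conjTranspose] at h1
    rw [hK1]
    exact h1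
  have hεK1 : ε * K1 = K1 * ε := by
    rw [hK1, ← Matrix.mul_assoc, hεB, Matrix.mul_assoc, hεBH, Matrix.mul_assoc]
  have hK1B : B * cj K1 = K1 * B := by
    have h1 : cj (Bᴴ) = B * ε := by
      rw [cj_conjTranspose, hBT]
    rw [hK1, cj_mul, hcB, h1]
    calc B * (Bᴴ * ε * (B * ε)) = B * Bᴴ * (ε * B) * ε := by simp only [Matrix.mul_assoc]
      _ = B * Bᴴ * B * (ε * ε) := by rw [hεB]; simp only [Matrix.mul_assoc]
      _ = _ := by rw [hε2, Matrix.mul_one]
  obtain ⟨p, hp, hpp⟩ := exists_invSqrt hK1p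
  obtain ⟨N4, hN4⟩ : ∃ N4, N4 = aeval K1 p := ⟨_, rfl⟩
  rw [← hN4] at hp hpp
  have hN4u : IsUnit N4 := hp.isUnit
  have hN4K : N4 * K1 = K1 * N4 := by
    rw [hN4]; exact (aeval_comm (A := K1) (S := K1) rfl p).symm
  have hεN4 : ε * N4 = N4 * ε := by
    rw [hN4]; exact aeval_comm (A := ε) (S := K1) hεK1 p
  have hBN4 : B * cj N4 = N4 * B := by
    rw [hN4]; exact aeval_semiconj hK1B p
  -- the square root of `K1`
  obtain ⟨H, hH⟩ : ∃ H, H = N4 * K1 := ⟨_, rfl⟩
  have hN4H : N4 * H = 1 := by rw [hH, ← Matrix.mul_assoc, hpp]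
  have hHN4 : H * N4 = 1 := mul_eq_one_comm.1 hN4H
  have hHp : H.PosDef := by
    have h1 : H = N4⁻¹ := (inv_eq_left_inv hHN4).symm
    rw [h1]
    exact hp.inv
  obtain ⟨q, hq, hqq⟩ := exists_invSqrt hHp
  obtain ⟨N, hN⟩ : ∃ N, N = aeval H q := ⟨_, rfl⟩
  rw [← hN] at hq hqq
  have hNu : IsUnit N := hq.isUnit
  have hεH : ε * H = H * ε := by
    rw [hH, ← Matrix.mul_assoc, hεN4, Matrix.mul_assoc, hεK1, Matrix.mul_assoc]
  have hεN : ε * N = N * ε := by
    rw [hN]; exact aeval_comm (A := ε) (S := H) hεH q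
  have hHN : H * N = N * H := by
    rw [hN]; exact aeval_comm (A := H) (S := H) rfl q
  obtain ⟨U, hU⟩ : ∃ U, U = N4 * B := ⟨_, rfl⟩
  have hBU : B = H * U := by rw [hU, ← Matrix.mul_assoc, hHN4, Matrix.one_mul]
  have hUU : U * Uᴴ = 1 := by
    rw [hU, conjTranspose_mul, hp.isHermitian.eq]
    calc N4 * B * (Bᴴ * N4) = N4 * (K1 * N4) := by rw [hK1]; simp only [Matrix.mul_assoc]
      _ = N4 * N4 * K1 := by rw [← hN4K, Matrix.mul_assoc]
      _ = 1 := hpp
  have hUH : U * cj H = H * U := by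
    have h1 : U * cj N4 = N4 * U := by
      rw [hU, Matrix.mul_assoc, hBN4]
    calc U * cj H = U * cj N4 * cj K1 := by rw [hH, cj_mul, Matrix.mul_assoc]
      _ = N4 * U * cj K1 := by rw [h1]
      _ = N4 * N4 * (B * cj K1) := by rw [hU]; simp only [Matrix.mul_assoc]
      _ = N4 * (N4 * K1) * B := by rw [hK1B]; simp only [Matrix.mul_assoc]
      _ = N4 * (K1 * N4) * B := by rw [hN4K]
      _ = (N4 * K1) * (N4 * B) := by simp only [Matrix.mul_assoc]
      _ = _ := by rw [← hH, ← hU]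
  have hUN : U * cj N = N * U := by
    rw [hN]; exact aeval_semiconj hUH q
  have hcN : (cj N)ᵀ = N := by
    have h1 : (cj N)ᵀ = Nᴴ := by
      ext i j
      simp [cj, conjTranspose_apply]
    rw [h1, hq.isHermitian.eq]
  have hB' : (cj N)ᵀ * B * cj N = U := by
    calc (cj N)ᵀ * B * cj N = N * (H * U) * cj N := by rw [hcN, ← hBU]
      _ = N * H * (U * cj N) := by simp only [Matrix.mul_assoc]
      _ = N * (H * N) * U := by rw [hUN]; simp only [Matrix.mul_assoc]
      _ = (N * N * H) * U := by rw [hHN]; simp only [Matrix.mul_assoc]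
      _ = U := by rw [hqq, Matrix.one_mul]
  refine ⟨cj N, ?_, ?_, ?_⟩
  · have : cj N = (starRingEnd ℂ).mapMatrix N := rfl
    rw [this]
    exact hNu.map _
  · have := congrArg cj hεN
    rwa [cj_mul, cj_mul, hεr] at this
  · rw [hB']
    exact mul_eq_one_comm.1 hUU

end Pool.Agent.Q55.Ke
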