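import Pool.Agent.Q55.Ke.Geo
import Pool.Agent.Q55.Ke.Pos
import Pool.Agent.Q55.Ke.Uni
import Pool.Agent.Q60.NP.PGen
import Pool.Agent.W552.Main

/-!
# Positivity for the classes generated by the cycles on a fixed power
-/

open CategoryTheory AlgebraicGeometry

set_option linter.unusedSectionVars false

universe u v

namespace Pool.Agent.Q55.Ke

open Module Matrix
open Pool.Agent.H914 Pool.Agent.H914.VarClass Pool.Agent.H914.VarClass.Obj
  Pool.Agent.H914.WeilCohomology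
open Pool.Agent.Y133.Half Pool.Agent.Q60.ED Pool.Agent.Q60.TD Pool.Agent.H281R3.HT
  Pool.Agent.H447 Pool.Agent.Q55 Pool.Agent.Q55.Hs Pool.Agent.Q60.NP
open Pool.Agent.W552 (AS AOp RatSub Fr Sy st)
open Pool.Agent.Q60.HD (wd wd_zero wd_succ wd_map wd_prj wd_append wd_PH wb_PH sum_append' wb_xp)

lemma bf_tmul_tmul {K : Type} [Field K] {ι : Type} [Fintype ι] [DecidableEq ι] (B : Matrix ι ι K)
    {m n : ℕ} (s s' : (Fin m → ι) → K) (t t' : (Fin n → ι) → K) :
    Pool.Agent.Q60.ED.bf (TP B (m + n)) (tmul s t) (tmul s' t') =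
      Pool.Agent.Q60.ED.bf (TP B m) s s' * Pool.Agent.Q60.ED.bf (TP B n) t t' := by
  rw [Pool.Agent.Q60.ED.bf, Pool.Agent.Q60.ED.bf, Pool.Agent.Q60.ED.bf, sum_append,
    Finset.sum_mul_sum]
  refine Finset.sum_congr rfl fun I _ => Finset.sum_congr rfl fun J _ => ?_
  rw [sum_append, Finset.sum_mul_sum]
  refine Finset.sum_congr rfl fun I' _ => Finset.sum_congr rfl fun J' _ => ?_
  rw [TP_apply, TP_apply, TP_apply, Fin.prod_univ_add, tmul, tmul]
  simp only [Fin.append_left, Fin.append_right]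
  ring

/-- Positivity in lower degrees. -/
lemma RS.pos_low {K : Type} [Field K] [CharZero K] {ι : Type} [Fintype ι] [DecidableEq ι]
    {B : Matrix ι ι K} (R : RS B)
    {o : (Fin 1 → ι) → K} (ho : R.R 1 o) {p : ℚ} (hp : 0 < p)
    (hop : Pool.Agent.Q60.ED.bf (TP B 1) o o = p) {L : ℕ}
    (hpos : ∀ r, R.R L r → r ≠ 0 → ∃ q : ℚ, 0 < q ∧ Pool.Agent.Q60.ED.bf (TP B L) r r = q) :
    ∀ n ≤ L, ∀ r, R.R n r → r ≠ 0 → ∃ q : ℚ, 0 < q ∧ Pool.Agent.Q60.ED.bf (TP B n) r r = q := by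
  have hp0 : (p : K) ≠ 0 := by exact_mod_cast hp.ne'
  have ho0 : ∃ J, o J ≠ 0 := by
    by_contra hcon
    push Not at hcon
    have h1 : o = 0 := funext hcon
    rw [h1, bf_zero_left] at hop
    exact hp0 hop.symm
  obtain ⟨J₀, hJ₀⟩ := ho0
  have step : ∀ n, (∀ r, R.R (n + 1) r → r ≠ 0 →
      ∃ q : ℚ, 0 < q ∧ Pool.Agent.Q60.ED.bf (TP B (n + 1)) r r = q) → ∀ r, R.R n r → r ≠ 0 →
      ∃ q : ℚ, 0 < q ∧ Pool.Agent.Q60.ED.bf (TP B n) r r = q := by
    intro n h r hr hr0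
    have h1 : tmul r o ≠ 0 := by
      intro h0
      apply hr0
      funext I
      have h2 := congrFun h0 (Fin.append I J₀)
      rw [tmul] at h2
      simp only [Fin.append_left, Fin.append_right, Pi.zero_apply] at h2
      exact (mul_eq_zero.1 h2).resolve_right hJ₀
    obtain ⟨q, hq, hq'⟩ := h _ (R.mul hr ho) h1
    rw [bf_tmul_tmul, hop] at hq'
    refine ⟨q / p, div_pos hq hp, ?_⟩
    rw [Rat.cast_div, eq_div_iff hp0, hq']
  have key : ∀ j, ∀ n, n + j = L → ∀ r, R.R n r → r ≠ 0 →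
      ∃ q : ℚ, 0 < q ∧ Pool.Agent.Q60.ED.bf (TP B n) r r = q := by
    intro j
    induction j with
    | zero =>
      intro n hn
      obtain rfl : n = L := by omega
      exact hpos
    | succ j ih =>
      intro n hn
      exact step n (ih (n + 1) (by omega))
  intro n hn
  exact key (L - n) n (by omega)

/-- The property of a field of coefficients which is used in the main theorem. -/
def Pack (K : Type) [Field K] : Prop :=
  ∀ (b : ℕ) (B : Matrix (Fin b) (Fin b) K) (a : Fin b → ℕ), IsUnit B → Bᵀ = B * sgm K a →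
    sgm K a * B = B * sgm K a → ∃ P : Matrix (Fin b) (Fin b) K, IsUnit P ∧
      sgm K a * P = P * sgm K a ∧ ∀ (B' : Matrix (Fin b) (Fin b) K), B' = Pᵀ * B * P →
      ∀ (R : RS B') (L M : ℕ), L ≤ M → ∀ T : TSys K (Fin b),
      T.S = (R.span.genS M).S →
      (∀ n, ∀ v ∈ T.S n, (∀ w ∈ T.S n, Pool.Agent.Q60.ED.bf (TP B' n) v w = 0) → v = 0) →
      (∀ n ≤ L, ∀ r, R.R n r → r ≠ 0 → ∃ q : ℚ, 0 < q ∧
        Pool.Agent.Q60.ED.bf (TP B' n) r r = q) →
      ∃ κ : Matrix (Fin b) (Fin b) K, (∀ n ≤ L, ∀ t, R.R n t → tpow κ n t = t) ∧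
        ∀ n r, R.R n r → r ∈ T.S n → tpow κ n r = r → r ≠ 0 → ∀ q : ℚ,
          Pool.Agent.Q60.ED.bf (TP B' n) r r = q → 0 < q

/-- The complex numbers have the property. -/
theorem pack_C : Pack ℂ := by
  intro b B a hB hBT hεB
  obtain ⟨P, hP, hPs, hPu⟩ := exists_unitary hB (sgm_sq ℂ a) (by
      ext i j
      rw [sgm, Pool.Agent.W552.cj, Matrix.map_apply]
      by_cases hij : i = j
      · subst hij
        rw [diagonal_apply_eq]
        simp
      · rw [diagonal_apply_ne _ hij]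
        simp) hBT hεB
  refine ⟨P, hP, hPs, fun B' hB' R L M hLM T hT hnd hpos => ?_⟩
  rw [← hB'] at hPu
  obtain ⟨κ, -, hκ1, hκ2⟩ := exists_k hPu R hLM hT hnd hpos
  refine ⟨κ, hκ1, fun n r hr hrT hκr hr0 q hq => ?_⟩
  have h6 := hκ2 n r hr hrT hκr hr0
  have h7 : ((q : ℂ)).re = (q : ℝ) := by
    have h8 : (q : ℂ) = ((q : ℝ) : ℂ) := by push_cast; rfl
    rw [h8, Complex.ofReal_re]
  rw [hq, h7] at h6
  exact_mod_cast h6

section General

variable {k : Type u} [Field k] {𝒱 : VarClass k} {ops : CycleOps 𝒱}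
  {W : WeilCohomology.{u, 0} ops} {X : 𝒱.Obj} {D : X.Cycles}

/-- The rational system of a Weil cohomology theory. -/
noncomputable def rsys {ι : Type} [Fintype ι] [DecidableEq ι]
    {e : Basis ι W.K (W.H X)} {a : ι → ℕ}
    (he : ∀ j, e j ∈ PH W X (a j)) {f : Module.End W.K (W.H X)}
    (G : Pz W X D f) (h1 : PosOne W X D f)
    (hpar : AOp W X X (par (W.isInternal X)))
    (hst : AOp W X X (st W X D f)) :
    RS (ι := ι) (gramB e D f) where
  R n t := RT e n t
  rat n := RT.rat e n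
  one := RT.one e
  mul hs ht := RT.mul hs ht
  perm σ _ ht := RT.perm he hpar σ ht
  contr hs ht := RT.contr he (exists_pc G h1) hs ht fun _ ht => RT.zero G.fr h1 ht
  om := (RT.inv_mem he G hst).1
  zero _ ht := RT.zero G.fr h1 ht
  symm {n s t} hs ht := by
    cases n with
    | zero => rw [bf_zero, bf_zero, mul_comm]
    | succ n =>
      obtain ⟨g, G'⟩ := exists_pc (e := e) G h1 n
      exact G'.symm ht

/-- **The main theorem.** -/
theorem main_gen (hK : Pack W.K) [IsAlgClosed W.K] (hD : X.IsCyc 1 D)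
    (hdeg : 0 < X.V.degCycle (divPow ops D X.dim X.V.fundCycle))
    (hHL : HardLefschetz W X D) {N : ℕ} (hN : 2 ≤ N)
    (hnum : HomEqNum W (pw X (N + 2 * finrank W.K (W.H X) ^ 2 + 1)))
    (hH : HodgeType W (pw X N) (pwDiv ops D N)) (n : ℕ) :
    ∃ g, Fr W (pw X n) (pwDiv ops D n) g ∧ ∀ c, AS W (pw X n) c →
      IsFixed W X N n c → c ≠ 0 → ∃ q : ℚ, 0 < q ∧
        Pool.Agent.W552.bf W (pw X n) (pwDiv ops D n) g c c = q := by
  classical
  set b := finrank W.K (W.H X) with hb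
  have hnum' : ∀ m ≤ N + 2 * b ^ 2 + 1, HomEqNum W (pw X m) := fun m hm =>
    (homEqNum_iff _).2 (num_mono hm ((homEqNum_iff _).1 hnum))
  have hsq : HomEqNum W (X.prod X) := hnum' 1 (by omega)
  have hB : LefschetzB W X D := lefschetzB_of_square hD hHL hsq
  have hpa := Pool.Agent.W552.proj_aop hD hHL hB
  have hpar := Pool.Agent.W552.par_aop hpa
  have hpar' := par_alg hD hHL hB
  obtain ⟨f, G⟩ := exists_pz hD hHL hB
  have h1 := posOne G.fr hdeg
  have hst := Pool.Agent.W552.st_aop G.fr hpa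
  -- the basis
  obtain ⟨e₀, a, he₀⟩ := exists_grbasis W X
  have he₀' : ∀ j, e₀ j ∈ PH W X (a j) := fun j => PH.of (he₀ j)
  obtain ⟨P, hP, hPs, hPk⟩ := hK b (gramB e₀ D f) a (RT.inv_mem he₀' G hst).2
    (gramB_transpose he₀' G.sy) (sgm_gramB he₀' G.sy)
  obtain ⟨e, he, hgr⟩ := exists_cob (D := D) he₀' hP hPs
  have hBd : (gramB e D f).det ≠ 0 :=
    isUnit_iff_ne_zero.1 ((Matrix.isUnit_iff_isUnit_det _).1 (RT.inv_mem he G hst).2)
  set R := rsys he G h1 hpar hst with hR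
  have hCS : ∀ n, R.span.S n = crdK e (algSys W) n := fun n => (crdK_span e n).symm
  obtain ⟨M', hM1, hM2, hstab⟩ := R.span.exists_stable N
  rw [Fintype.card_fin, ← hb] at hM2
  have hnd : ∀ n ≤ M' + 2, ∀ v ∈ R.span.S n, (∀ w ∈ R.span.S n,
      Pool.Agent.Q60.ED.bf (TP (gramB e D f) n) v w = 0) → v = 0 := by
    intro n hn v hv h
    rw [hCS] at hv h
    exact gramB_nd (exists_pc G h1) (fun m hm => hnum' m (by omega)) v hv h
  obtain ⟨T, hT⟩ := R.span.exists_tsys hBd (by omega) hnd hstab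
  have hndT : ∀ n, ∀ v ∈ T.S n, (∀ w ∈ T.S n,
      Pool.Agent.Q60.ED.bf (TP (gramB e D f) n) v w = 0) → v = 0 := by
    intro n
    rw [hT]
    exact CSys.genS_nd hBd (by omega) hnd hstab n
  have hposL : ∀ r, R.R (N + 1) r → r ≠ 0 → ∃ q : ℚ, 0 < q ∧
      Pool.Agent.Q60.ED.bf (TP (gramB e D f) (N + 1)) r r = q := by
    intro r hr hr0
    obtain ⟨g, G'⟩ := exists_pc (e := e) G h1 N
    have hr' : AS W (pw X N) (clsK e (prj X N) r) := RT_succ.1 hr
    obtain ⟨q, hq, hq'⟩ := G'.pz.fr.bf_pos hH hr' fun h0 => hr0 (by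
      apply clsK_inj e N
      rw [h0, clsK_zero])
    exact ⟨q, hq, (G'.bf r r).symm.trans hq'⟩
  have hpos : ∀ n ≤ N + 1, ∀ r, R.R n r → r ≠ 0 → ∃ q : ℚ, 0 < q ∧
      Pool.Agent.Q60.ED.bf (TP (gramB e D f) n) r r = q := by
    obtain ⟨g, G'⟩ := exists_pc (e := e) G h1 0
    obtain ⟨p, hp, hp'⟩ := G'.one
    have ho : RT e 1 (tn e 0 1) := by
      rw [RT_succ, clsK_tn]
      exact AS.one
    refine R.pos_low (o := tn e 0 1) ho hp ?_ hposL
    have h2 := G'.bf (tn e 0 1) (tn e 0 1)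
    rw [clsK_tn] at h2
    exact h2.symm.trans hp'
  obtain ⟨κ, hκ1, hκ2⟩ := hPk _ (hgr f) R (N + 1) (M' + 2) (by omega) T hT hndT hpos
  obtain ⟨g, G'⟩ := exists_pc (e := e) G h1 n
  refine ⟨g, G'.pz.fr, fun c hc hfix hc0 => ?_⟩
  have hrt : RT e (n + 1) (tn e n c) := by
    rw [RT_succ, clsK_tn]
    exact hc
  -- matrices which fix the tensors of low degree fix the tensor of the class
  have hmat : ∀ h : Matrix (Fin b) (Fin b) W.K,
      (∀ m ≤ N + 1, ∀ s ∈ crdK e (algSys W) m, tpow h m s = s) →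
      tpow h (n + 1) (tn e n c) = tn e n c := by
    intro h hh
    obtain ⟨A, hA⟩ := exists_auto e he hpar' (g := h) fun m hm s hs => hh m (by omega) s hs
    have h3 : A.FixesCycles N := by
      intro j z hz
      apply (wb e N).equivFun.injective
      change tn e _ _ = tn e _ _
      rw [act_tn e A hA]
      apply hh _ le_rfl
      rw [mem_crdK_succ, clsK_tn]
      exact Submodule.subset_span (Set.mem_iUnion.2 ⟨j, z, hz, rfl⟩)
    have h4 := act_tn e A hA n c
    rw [show A.act n c = c from hfix A h3] at h4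
    exact h4.symm
  have hκ : tpow κ (n + 1) (tn e n c) = tn e n c := by
    refine hmat κ fun m hm s hs => ?_
    rw [crdK_span] at hs
    induction hs using Submodule.span_induction with
    | mem x hx => exact hκ1 m hm x hx
    | zero => exact map_zero _
    | add x y _ _ hx hy => rw [map_add, hx, hy]
    | smul c x _ hx => rw [map_smul, hx]
  have hTm : tn e n c ∈ T.S (n + 1) := by
    have hΩ : (om (gramB e D f)) ∈ T.S 2 := by
      rw [hT]
      exact (R.span.genS (M' + 2)).om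
    have hΩd : (mat2 (om (gramB e D f))).det ≠ 0 := by
      rw [mat2_om]
      exact (Matrix.isUnit_nonsing_inv_det _ (isUnit_iff_ne_zero.2 hBd)).ne_zero
    refine T.mem_of_fixed hΩ hΩd fun h hh => hmat h fun m hm s hs => hh m s ?_
    rw [hT, CSys.genS_eq (by omega), hCS]
    exact hs
  have ht0 : tn e n c ≠ 0 := by
    intro h0
    apply hc0
    have h5 := clsK_tn e n c
    rw [h0, clsK_zero] at h5
    exact h5.symm
  obtain ⟨q, hq⟩ := R.bf_rat (n := n + 1) hrt hrt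
  refine ⟨q, hκ2 (n + 1) (tn e n c) hrt hTm hκ ht0 q hq, ?_⟩
  have h2 := G'.bf (tn e n c) (tn e n c)
  rw [clsK_tn] at h2
  exact h2.trans hq

end General

section Final

variable {k : Type u} [Field k] {𝒱 : VarClass k} {ops : CycleOps 𝒱}
  {W : WeilCohomology.{u, 0} ops} {X : 𝒱.Obj} {D : X.Cycles}

/-- **Positivity for the classes generated by the cycles on a fixed power.** -/
theorem main (hσ : Nonempty (W.K →+* ℂ)) (hD : X.IsCyc 1 D)
    (hdeg : 0 < X.V.degCycle (divPow ops D X.dim X.V.fundCycle))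
    (hHL : HardLefschetz W X D) {N : ℕ} (hN : 2 ≤ N)
    (hnum : HomEqNum W (pw X (N + 2 * finrank W.K (W.H X) ^ 2 + 1)))
    (hH : HodgeType W (pw X N) (pwDiv ops D N)) (n : ℕ) :
    Pool.Agent.W552.HodgeTypeOn W (pw X n) (pwDiv ops D n) (genCycles W X N n) := by
  obtain ⟨σ⟩ := hσ
  let _ : Algebra W.K ℂ := σ.toAlgebra
  have hF : IsAlgClosed (baseW W ℂ).K := (inferInstance : IsAlgClosed ℂ)
  have hb : finrank (baseW W ℂ).K ((baseW W ℂ).H X) = finrank W.K (W.H X) :=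
    Module.finrank_baseChange (R := ℂ) (S := W.K) (M' := W.H X)
  have h' : HomEqNum (baseW W ℂ)
      (pw X (N + 2 * finrank (baseW W ℂ).K ((baseW W ℂ).H X) ^ 2 + 1)) := by
    rw [hb]
    exact Pool.Agent.Y129.homEqNum_base' ℂ hnum
  obtain ⟨g, hg, hpos⟩ := main_gen (W := baseW W ℂ) pack_C hD hdeg
    (base_hardLefschetz hD hHL) hN h' (base_hodgeType.2 hH) n
  intro j hj z hz hmem hprim hz0
  refine (hg.hodge hz fun h0 => hpos _ (AS.of ⟨z, hz, rfl⟩) (fun A hA => ?_) h0).1 hj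
    (base_cl_eq_zero.2 hprim) fun h0 => hz0 (base_cl_eq_zero.1 h0)
  have h4 := genCycles_le ℂ N n hmem A hA
  rw [← Pool.Agent.Y121.AH.em_cl] at h4
  exact h4

end Final

end Pool.Agent.Q55.Ke
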