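import Pool.Agent.Q55.Ke.Lim
import Pool.Agent.W552.RatBasis

/-!
# Rational systems of tensors
-/

set_option linter.unusedSectionVars false

open scoped ComplexOrder

namespace Pool.Agent.Q55.Ke

open Module Matrix Pool.Agent.Q60.ED Pool.Agent.Q60.NP
open Pool.Agent.W552 (RatSub)

variable {K : Type} [Field K] {ι : Type} [Fintype ι] [DecidableEq ι] {B : Matrix ι ι K}

/-- A system of rational tensors. -/
structure RS (B : Matrix ι ι K) where
  /-- the rational tensors -/
  R : ∀ n : ℕ, ((Fin n → ι) → K) → Prop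
  rat : ∀ n, RatSub K (R n)
  one : R 0 fun _ => 1
  mul : ∀ {m n : ℕ} {s : (Fin m → ι) → K} {t : (Fin n → ι) → K}, R m s → R n t →
    R (m + n) (tmul s t)
  perm : ∀ {n : ℕ} (σ : Equiv.Perm (Fin n)) {t : (Fin n → ι) → K}, R n t →
    R n fun J => t (J ∘ σ)
  contr : ∀ {m n : ℕ} {s : (Fin m → ι) → K} {t : (Fin (m + n) → ι) → K}, R m s →
    R (m + n) t → R n (ctr B s t)
  om : R 2 (om B)
  zero : ∀ t, R 0 t → ∃ q : ℚ, t default = q
  symm : ∀ {n : ℕ} {s t : (Fin n → ι) → K}, R n s → R n t →
    bf (TP B n) s t = bf (TP B n) t s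

lemma ctr_add_left {m n : ℕ} (s s' : (Fin m → ι) → K) (t : (Fin (m + n) → ι) → K) :
    ctr B (s + s') t = ctr B s t + ctr B s' t := by
  funext J
  simp only [ctr, Pi.add_apply, add_mul, Finset.sum_add_distrib]

lemma ctr_add_right {m n : ℕ} (s : (Fin m → ι) → K) (t t' : (Fin (m + n) → ι) → K) :
    ctr B s (t + t') = ctr B s t + ctr B s t' := by
  funext J
  simp only [ctr, Pi.add_apply, mul_add, Finset.sum_add_distrib]

lemma ctr_smul_left {m n : ℕ} (c : K) (s : (Fin m → ι) → K) (t : (Fin (m + n) → ι) → K) :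
    ctr B (c • s) t = c • ctr B s t := by
  funext J
  simp only [ctr, Pi.smul_apply, smul_eq_mul, Finset.mul_sum, mul_assoc]

lemma ctr_smul_right {m n : ℕ} (c : K) (s : (Fin m → ι) → K) (t : (Fin (m + n) → ι) → K) :
    ctr B s (c • t) = c • ctr B s t := by
  funext J
  simp only [ctr, Pi.smul_apply, smul_eq_mul, Finset.mul_sum]
  exact Finset.sum_congr rfl fun _ _ => Finset.sum_congr rfl fun _ _ => by ring

lemma ctr_zero_left {m n : ℕ} (t : (Fin (m + n) → ι) → K) :
    ctr B (0 : (Fin m → ι) → K) t = 0 := by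
  funext J
  simp [ctr]

lemma ctr_zero_right {m n : ℕ} (s : (Fin m → ι) → K) :
    ctr B s (0 : (Fin (m + n) → ι) → K) = 0 := by
  funext J
  simp [ctr]

lemma tmul_add_left {m n : ℕ} (s s' : (Fin m → ι) → K) (t : (Fin n → ι) → K) :
    tmul (s + s') t = tmul s t + tmul s' t := by
  funext J
  simp only [tmul, Pi.add_apply, add_mul]

lemma tmul_add_right {m n : ℕ} (s : (Fin m → ι) → K) (t t' : (Fin n → ι) → K) :
    tmul s (t + t') = tmul s t + tmul s t' := by
  funext J
  simp only [tmul, Pi.add_apply, mul_add]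

lemma tmul_smul_left {m n : ℕ} (c : K) (s : (Fin m → ι) → K) (t : (Fin n → ι) → K) :
    tmul (c • s) t = c • tmul s t := by
  funext J
  simp only [tmul, Pi.smul_apply, smul_eq_mul, mul_assoc]

lemma tmul_smul_right {m n : ℕ} (c : K) (s : (Fin m → ι) → K) (t : (Fin n → ι) → K) :
    tmul s (c • t) = c • tmul s t := by
  funext J
  simp only [tmul, Pi.smul_apply, smul_eq_mul]
  ring

lemma tmul_zero_left {m n : ℕ} (t : (Fin n → ι) → K) :
    tmul (0 : (Fin m → ι) → K) t = 0 := by
  funext J
  simp [tmul]

lemma tmul_zero_right {m n : ℕ} (s : (Fin m → ι) → K) :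
    tmul s (0 : (Fin n → ι) → K) = 0 := by
  funext J
  simp [tmul]

namespace RS

variable (R : RS B)

/-- The span of the rational tensors. -/
noncomputable def span : CSys B where
  S n := Submodule.span K {t | R.R n t}
  one := Submodule.subset_span R.one
  mul {m n s t} hs ht := by
    induction hs using Submodule.span_induction with
    | mem s hs =>
      induction ht using Submodule.span_induction with
      | mem t ht => exact Submodule.subset_span (R.mul hs ht)
      | zero => rw [tmul_zero_right]; exact Submodule.zero_mem _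
      | add t t' _ _ h h' => rw [tmul_add_right]; exact Submodule.add_mem _ h h'
      | smul c t _ h => rw [tmul_smul_right]; exact Submodule.smul_mem _ _ h
    | zero => rw [tmul_zero_left]; exact Submodule.zero_mem _
    | add s s' _ _ h h' => rw [tmul_add_left]; exact Submodule.add_mem _ h h'
    | smul c s _ h => rw [tmul_smul_left]; exact Submodule.smul_mem _ _ h
  perm {n} σ t ht := by
    induction ht using Submodule.span_induction with
    | mem t ht => exact Submodule.subset_span (R.perm σ ht)
    | zero => exact Submodule.zero_mem _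
    | add t t' _ _ h h' => exact Submodule.add_mem _ h h'
    | smul c t _ h => exact Submodule.smul_mem _ c h
  contr {m n s t} hs ht := by
    change ctr B s t ∈ _
    induction hs using Submodule.span_induction with
    | mem s hs =>
      induction ht using Submodule.span_induction with
      | mem t ht => exact Submodule.subset_span (R.contr hs ht)
      | zero => rw [ctr_zero_right]; exact Submodule.zero_mem _
      | add t t' _ _ h h' => rw [ctr_add_right]; exact Submodule.add_mem _ h h'
      | smul c t _ h => rw [ctr_smul_right]; exact Submodule.smul_mem _ _ h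
    | zero => rw [ctr_zero_left]; exact Submodule.zero_mem _
    | add s s' _ _ h h' => rw [ctr_add_left]; exact Submodule.add_mem _ h h'
    | smul c s _ h => rw [ctr_smul_left]; exact Submodule.smul_mem _ _ h
  om := Submodule.subset_span R.om

lemma span_S (n : ℕ) : R.span.S n = Submodule.span K {t | R.R n t} := rfl

/-- The rational tensors in a closed system. -/
def inter (C : CSys B) : RS B where
  R n t := R.R n t ∧ t ∈ C.S n
  rat n :=
    { zero := ⟨(R.rat n).zero, Submodule.zero_mem _⟩
      add := fun hx hy => ⟨(R.rat n).add hx.1 hy.1, Submodule.add_mem _ hx.2 hy.2⟩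
      smul := fun q _ hx => ⟨(R.rat n).smul q hx.1, Submodule.smul_mem _ _ hx.2⟩ }
  one := ⟨R.one, C.one⟩
  mul hs ht := ⟨R.mul hs.1 ht.1, C.mul hs.2 ht.2⟩
  perm σ _ ht := ⟨R.perm σ ht.1, C.perm σ ht.2⟩
  contr hs ht := ⟨R.contr hs.1 ht.1, C.contr hs.2 ht.2⟩
  om := ⟨R.om, C.om⟩
  zero t ht := R.zero t ht.1
  symm hs ht := R.symm hs.1 ht.1

lemma inter_R {C : CSys B} {n : ℕ} {t : (Fin n → ι) → K} :
    (R.inter C).R n t ↔ R.R n t ∧ t ∈ C.S n := Iff.rfl

/-- The tensors generated by the rational tensors of low degree are spanned by rational tensors. -/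
lemma genS_span (M n : ℕ) :
    (R.span.genS M).S n = (R.inter (R.span.genS M)).span.S n := by
  apply le_antisymm
  · intro t ht
    refine CSys.mem_genS.1 ht _ fun m hm => ?_
    rw [span_S, span_S]
    exact Submodule.span_mono fun s hs => ⟨hs, CSys.le_genS hm (Submodule.subset_span hs)⟩
  · rw [span_S]
    exact Submodule.span_le.2 fun t ht => ht.2

/-- The form takes rational values. -/
lemma bf_rat {n : ℕ} {s t : (Fin n → ι) → K} (hs : R.R n s) (ht : R.R n t) :
    ∃ q : ℚ, bf (TP B n) s t = q := by
  obtain ⟨q, hq⟩ := R.zero _ (R.contr (m := n) (n := 0) hs ht)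
  refine ⟨q, ?_⟩
  rw [← hq, bf, ctr]
  refine Finset.sum_congr rfl fun I _ => Finset.sum_congr rfl fun I' _ => ?_
  congr 2
  exact (Fin.append_right_nil _ _ rfl).symm

end RS

namespace RS

variable {B : Matrix ι ι ℂ} (R : RS B)

lemma bf_real {n : ℕ} {s t : (Fin n → ι) → ℂ} (hs : R.R n s) (ht : R.R n t) :
    starRingEnd ℂ (bf (TP B n) s t) = bf (TP B n) s t := by
  obtain ⟨q, hq⟩ := R.bf_rat hs ht
  rw [hq]
  simp

end RS

/-- The form as a bilinear map. -/
noncomputable def bfB (G : Matrix ι ι ℂ) : (ι → ℂ) →ₗ[ℂ] (ι → ℂ) →ₗ[ℂ] ℂ :=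
  LinearMap.mk₂ ℂ (bf G) (bf_add_left G) (fun c v w => bf_smul_left G c v w)
    (bf_add_right G) fun c v w => bf_smul_right G c v w

lemma bfB_apply (G : Matrix ι ι ℂ) (v w : ι → ℂ) : bfB G v w = bf G v w := rfl

/-- An antilinear map agrees on a rational structure with a linear map. -/
lemma exists_lin {V : Type*} [AddCommGroup V] [Module ℂ V] [FiniteDimensional ℂ V] (R : Set V)
    (b : V →ₗ[ℂ] V →ₗ[ℂ] ℂ) (hreal : ∀ r ∈ R, ∀ r' ∈ R, starRingEnd ℂ (b r r') = b r r')
    (hnd : ∀ v ∈ Submodule.span ℂ R, (∀ w ∈ Submodule.span ℂ R, b v w = 0) → v = 0)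
    (J : V →ₛₗ[starRingEnd ℂ] V) : ∃ F : V →ₗ[ℂ] V, ∀ r ∈ R, F r = J r := by
  classical
  obtain ⟨S, hSR, hSspan, hSli⟩ := exists_linearIndependent ℂ R
  have hfin : S.Finite := hSli.setFinite
  have := hfin.fintype
  let bs := Basis.span hSli
  obtain ⟨F, hF⟩ := LinearMap.exists_extend (p := Submodule.span ℂ (Set.range ((↑) : S → V)))
    (bs.constr ℂ fun i => J (i : V))
  have hFi : ∀ i : S, F (i : V) = J (i : V) := by
    intro i
    have h1 : ((bs i : Submodule.span ℂ (Set.range ((↑) : S → V))) : V) = i := by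
      rw [Basis.span_apply]
    have h2 := congrArg (fun G => G (bs i)) hF
    simp only [LinearMap.comp_apply, Submodule.subtype_apply, Basis.constr_basis] at h2
    rwa [h1] at h2
  refine ⟨F, fun r hr => ?_⟩
  have hr' : r ∈ Submodule.span ℂ (Set.range ((↑) : S → V)) := by
    rw [Subtype.range_coe, hSspan]
    exact Submodule.subset_span hr
  obtain ⟨c, hc⟩ := (Submodule.mem_span_range_iff_exists_fun ℂ).1 hr'
  have hv : ∑ i : S, (c i - starRingEnd ℂ (c i)) • (i : V) = 0 := by
    apply hnd
    · exact Submodule.sum_mem _ fun i _ => Submodule.smul_mem _ _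
        (Submodule.subset_span (hSR i.2))
    · intro w hw
      rw [← hSspan] at hw
      induction hw using Submodule.span_induction with
      | mem s hs =>
        have hs' := hSR hs
        have h1 : b r s = ∑ i : S, c i * b (i : V) s := by
          rw [← hc, map_sum, LinearMap.sum_apply]
          exact Finset.sum_congr rfl fun i _ => by
            rw [map_smul, LinearMap.smul_apply, smul_eq_mul]
        have h2 : b r s = ∑ i : S, starRingEnd ℂ (c i) * b (i : V) s := by
          rw [← hreal r hr s hs', h1, map_sum]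
          exact Finset.sum_congr rfl fun i _ => by
            rw [map_mul, hreal _ (hSR i.2) s hs']
        rw [map_sum, LinearMap.sum_apply]
        simp only [map_smul, LinearMap.smul_apply, smul_eq_mul, sub_mul, Finset.sum_sub_distrib]
        rw [← h1, ← h2, sub_self]
      | zero => exact map_zero _
      | add x y _ _ hx hy => rw [map_add, hx, hy, add_zero]
      | smul a x _ hx => rw [map_smul, hx, smul_zero]
  have hci : ∀ i, starRingEnd ℂ (c i) = c i := fun i =>
    (sub_eq_zero.1 (Fintype.linearIndependent_iff.1 hSli _ hv i)).symm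
  rw [← hc, map_sum, map_sum]
  refine Finset.sum_congr rfl fun i _ => ?_
  rw [map_smul, map_smulₛₗ, hci, hFi]

end Pool.Agent.Q55.Ke
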