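import Pool.Agent.Q60.NP.PMain
import Pool.Agent.Q55.Hs.Block

/-!
# Rational tensors of a Weil cohomology theory
-/

open CategoryTheory AlgebraicGeometry TensorProduct

set_option linter.unusedSectionVars false

universe u v

namespace Pool.Agent.Q55.Ke

open Module Matrix
open Pool.Agent.H914 Pool.Agent.H914.VarClass Pool.Agent.H914.VarClass.Obj
  Pool.Agent.H914.WeilCohomology
open Pool.Agent.Y133.Half Pool.Agent.Q60.ED Pool.Agent.Q60.TD Pool.Agent.H281R3.HT
  Pool.Agent.H447 Pool.Agent.Q55 Pool.Agent.Q55.Hs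
open Pool.Agent.W552 (AS AOp RatSub Fr Sy)
open Pool.Agent.Q60.HD (wd wd_zero wd_succ wd_map wd_prj wd_append wd_PH wb_PH sum_append' wb_xp)

variable {k : Type u} [Field k] {𝒱 : VarClass k} {ops : CycleOps 𝒱}

variable {W : WeilCohomology.{u, 0} ops} {X Y Z : 𝒱.Obj} {ι : Type} [Fintype ι] [DecidableEq ι]
  (e : Basis ι W.K (W.H X))

/-- The rational tensors: the tensors whose classes are sums of algebraic classes. -/
def RT (n : ℕ) (t : (Fin n → ι) → W.K) : Prop :=
  ∀ (Z : 𝒱.Obj) (f : Fin n → (Z ⟶ X)), AS W Z (clsK e f t)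

lemma RT.rat (n : ℕ) : RatSub W.K (RT e n) where
  zero Z f := by rw [clsK_zero]; exact AS.zero
  add hs ht Z f := by rw [clsK_add]; exact (hs Z f).add (ht Z f)
  smul q t ht Z f := by rw [clsK_smul]; exact (ht Z f).smul q

lemma RT.one : RT e 0 fun _ => 1 := by
  intro Z f
  rw [clsK, Fintype.sum_unique, wd_zero, one_smul]
  exact AS.one

variable {e}

lemma RT_succ {n : ℕ} {t : (Fin (n + 1) → ι) → W.K} :
    RT e (n + 1) t ↔ AS W (pw X n) (clsK e (prj X n) t) := by
  constructor
  · intro h; exact h _ _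
  · intro h Z f
    have h1 := AS.map (liftN X n f) h
    rw [clsK_map] at h1
    have h2 : (fun i => liftN X n f ≫ prj X n i) = f := funext fun i => liftN_prj n f i
    rwa [h2] at h1

lemma RT.mul {m n : ℕ} {s : (Fin m → ι) → W.K} {t : (Fin n → ι) → W.K} (hs : RT e m s)
    (ht : RT e n t) : RT e (m + n) (tmul s t) := by
  intro Z f
  have h1 : clsK e f (tmul s t) = clsK e (fun i => f (Fin.castAdd n i)) s *
      clsK e (fun j => f (Fin.natAdd m j)) t := by
    rw [clsK, clsK, clsK, Finset.sum_mul_sum, sum_append']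
    refine Finset.sum_congr rfl fun I _ => Finset.sum_congr rfl fun J _ => ?_
    rw [wd_append, smul_mul_smul_comm]
    congr 1
    simp only [Pool.Agent.Q60.ED.tmul, Fin.append_left, Fin.append_right]
  rw [h1]
  exact (hs _ _).mul (ht _ _)

variable {a : ι → ℕ}

/-- The parity operator at one of the factors. -/
lemma parop (he : ∀ j, e j ∈ PH W X (a j)) (hpar : AOp W X X (par (W.isInternal X))) (n : ℕ)
    (i : Fin (n + 1)) : ∃ P, AOp W (pw X n) (pw X n) P ∧ ∀ w : Fin (n + 1) → ι,
      P (wb e n w) = (-1 : W.K) ^ (a (w i)) • wb e n w := by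
  induction n with
  | zero =>
    refine ⟨par (W.isInternal X), hpar, fun w => ?_⟩
    have hi : i = 0 := by omega
    rw [hi, wb_zero]
    exact PH.par (he _)
  | succ n ih =>
    refine Fin.lastCases ?_ (fun j => ?_) i
    · refine ⟨extOp W (1 : Module.End W.K (W.H (pw X n))) (par (W.isInternal X)),
        AOp.ext AOp.one hpar, fun w => ?_⟩
      have h1 := extOp_tmul (W := W) (Y := pw X n) (Z := X) LinearMap.id (par (W.isInternal X))
        (wb e n fun i => w i.castSucc) (e (w (Fin.last _)))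
      rw [wb_succ]
      refine h1.trans ?_
      rw [PH.par (he _), map_smul, mul_smul_comm]
      rfl
    · obtain ⟨P, hP, hPw⟩ := ih j
      refine ⟨extOp W P (1 : Module.End W.K (W.H X)), AOp.ext hP AOp.one, fun w => ?_⟩
      have h1 := extOp_tmul (W := W) (Y := pw X n) (Z := X) P LinearMap.id
        (wb e n fun i => w i.castSucc) (e (w (Fin.last _)))
      rw [wb_succ]
      refine h1.trans ?_
      rw [hPw, map_smul, smul_mul_assoc]
      rfl

/-- The multipliers of the rational tensors. -/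
def Mul (e : Basis ι W.K (W.H X)) (n : ℕ) (ψ : (Fin n → ι) → W.K) : Prop :=
  ∀ t, RT e n t → RT e n (ψ * t)

lemma Mul.one {n : ℕ} : Mul e n 1 := fun t ht => by rwa [one_mul]

lemma Mul.mul {n : ℕ} {ψ φ : (Fin n → ι) → W.K} (h : Mul e n ψ) (h' : Mul e n φ) :
    Mul e n (ψ * φ) := fun t ht => by
  rw [mul_assoc]
  exact h _ (h' _ ht)

lemma Mul.add {n : ℕ} {ψ φ : (Fin n → ι) → W.K} (h : Mul e n ψ) (h' : Mul e n φ) :
    Mul e n (ψ + φ) := fun t ht => by
  rw [add_mul]
  exact (RT.rat e n).add (h _ ht) (h' _ ht)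

lemma Mul.smul {n : ℕ} {ψ : (Fin n → ι) → W.K} (q : ℚ) (h : Mul e n ψ) :
    Mul e n ((q : W.K) • ψ) := fun t ht => by
  rw [smul_mul_assoc]
  exact (RT.rat e n).smul q (h _ ht)

lemma Mul.chi (he : ∀ j, e j ∈ PH W X (a j)) (hpar : AOp W X X (par (W.isInternal X))) {n : ℕ}
    (i : Fin n) : Mul e n (chiK W.K a i) := by
  cases n with
  | zero => exact i.elim0
  | succ n =>
    intro t ht
    rw [RT_succ] at ht ⊢
    obtain ⟨P, hP, hPw⟩ := parop he hpar n i
    have h1 := hP.apply ht
    have h2 : P (clsK e (prj X n) t) = clsK e (prj X n) (chiK W.K a i * t) := by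
      rw [clsK, map_sum, clsK]
      refine Finset.sum_congr rfl fun w _ => ?_
      rw [map_smul, wd_prj, hPw, smul_smul, Pi.mul_apply, chiK, mul_comm]
    rwa [h2] at h1

lemma Mul.sign (he : ∀ j, e j ∈ PH W X (a j)) (hpar : AOp W X X (par (W.isInternal X))) {n : ℕ}
    (i j : Fin n) : Mul e n (fun w : Fin n → ι => (-1 : W.K) ^ (a (w i) * a (w j))) := by
  have h20 : (2 : W.K) ≠ 0 := two_ne_zero
  have h1 : (fun w : Fin n → ι => (-1 : W.K) ^ (a (w i) * a (w j))) =
      (((2⁻¹ : ℚ)) : W.K) • (1 + chiK W.K a i + chiK W.K a j +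
        (((-1 : ℚ)) : W.K) • (chiK W.K a i * chiK W.K a j)) := by
    funext w
    simp only [Pi.smul_apply, Pi.add_apply, Pi.one_apply, Pi.mul_apply, chiK,
      smul_eq_mul]
    push_cast
    rcases Nat.even_or_odd (a (w i)) with h | h <;> rcases Nat.even_or_odd (a (w j)) with h' | h'
    · rw [h.neg_one_pow, h'.neg_one_pow, (h.mul_right _).neg_one_pow]; field_simp; norm_num
    · rw [h.neg_one_pow, h'.neg_one_pow, (h.mul_right _).neg_one_pow]; field_simp; norm_num
    · rw [h.neg_one_pow, h'.neg_one_pow, (h'.mul_left _).neg_one_pow]; field_simp; norm_num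
    · rw [h.neg_one_pow, h'.neg_one_pow, (h.mul h').neg_one_pow]; field_simp; norm_num
  rw [h1]
  have h2 := Mul.chi he hpar i
  have h3 := Mul.chi he hpar j
  exact (((Mul.one.add h2).add h3).add ((h2.mul h3).smul (-1))).smul _

/-- Products of classes in a different order. -/
lemma list_permR (he : ∀ j, e j ∈ PH W X (a j)) (hpar : AOp W X X (par (W.isInternal X))) {n : ℕ}
    {l l' : List (Fin n)} (h : l.Perm l') : ∃ s, Mul e n s ∧ ∀ (Z : 𝒱.Obj) (x : Fin n → W.H Z)
      (w : Fin n → ι), (∀ i, x i ∈ PH W Z (a (w i))) →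
        (l.map x).prod = s w • (l'.map x).prod := by
  induction h with
  | nil => exact ⟨1, Mul.one, fun Z x w _ => by simp⟩
  | cons i _ ih =>
    obtain ⟨s, hs, h⟩ := ih
    refine ⟨s, hs, fun Z x w hx => ?_⟩
    rw [List.map_cons, List.map_cons, List.prod_cons, List.prod_cons, h Z x w hx, mul_smul_comm]
  | swap i j l =>
    refine ⟨_, Mul.sign he hpar j i, fun Z x w hx => ?_⟩
    rw [List.map_cons, List.map_cons, List.map_cons, List.map_cons, List.prod_cons,
      List.prod_cons, List.prod_cons, List.prod_cons, ← mul_assoc, PH.comm (hx j) (hx i),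
      smul_mul_assoc, mul_assoc]
  | trans _ _ ih1 ih2 =>
    obtain ⟨s, hs, h⟩ := ih1
    obtain ⟨s', hs', h'⟩ := ih2
    refine ⟨s * s', hs.mul hs', fun Z x w hx => ?_⟩
    rw [h Z x w hx, h' Z x w hx, smul_smul, Pi.mul_apply]

lemma RT.perm (he : ∀ j, e j ∈ PH W X (a j)) (hpar : AOp W X X (par (W.isInternal X))) {n : ℕ}
    (σ : Equiv.Perm (Fin n)) {t : (Fin n → ι) → W.K} (ht : RT e n t) :
    RT e n (fun J => t (J ∘ σ)) := by
  have hp : (List.ofFn σ.symm).Perm (List.ofFn (id : Fin n → Fin n)) :=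
    Equiv.Perm.ofFn_comp_perm σ.symm id
  obtain ⟨s, hs, h⟩ := list_permR he hpar hp
  intro Z f
  have h1 : clsK e f (fun J => t (J ∘ σ)) = clsK e (f ∘ σ) (s * t) := by
    rw [clsK, clsK, ← (Equiv.arrowCongr σ (Equiv.refl ι)).sum_comp]
    refine Finset.sum_congr rfl fun v _ => ?_
    have e1 : (Equiv.arrowCongr σ (Equiv.refl ι)) v = v ∘ σ.symm := rfl
    have e2 : (v ∘ σ.symm) ∘ σ = v := by funext i; simp
    have e3 := h Z (fun i => W.map (f (σ i)) (e (v i))) v fun i => PH.map _ (he _)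
    rw [List.map_ofFn, List.map_ofFn] at e3
    have e4 : wd e f (v ∘ σ.symm) =
        (List.ofFn ((fun i => W.map (f (σ i)) (e (v i))) ∘ σ.symm)).prod := by
      rw [wd]
      congr 2
      funext i
      simp
    rw [e1]
    rw [e2, e4, e3, smul_smul, Pi.mul_apply, mul_comm]
    rfl
  rw [h1]
  exact (hs t ht) _ _

end Pool.Agent.Q55.Ke
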