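import Pool.Agent.W552.MatA
import Pool.Agent.Q55.Ke.Aut

/-!
# Square roots of positive definite matrices which preserve a form, and hermitian products
-/

set_option linter.unusedSectionVars false

open scoped ComplexOrder

namespace Pool.Agent.Q55.Ke

open Module Matrix Pool.Agent.Q60.ED Pool.Agent.Q60.NP

variable {ι : Type} [Fintype ι] [DecidableEq ι]

section Unique

open scoped MatrixOrder Matrix.Norms.L2Operator

lemma sq_unique {A B : Matrix ι ι ℂ} (hA : A.PosSemidef) (hB : B.PosSemidef)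
    (h : A * A = B * B) : A = B :=
  (CFC.mul_self_eq_mul_self_iff A B hA.nonneg hB.nonneg).1 h

end Unique

variable {B g h : Matrix ι ι ℂ}

lemma inv_of_unitary (hB : Bᴴ * B = 1) : B⁻¹ = Bᴴ := inv_eq_left_inv hB

lemma det_of_unitary (hB : Bᴴ * B = 1) : B.det ≠ 0 := by
  intro h0
  have h1 := congrArg Matrix.det hB
  rw [det_mul, h0, mul_zero, det_one] at h1
  exact zero_ne_one h1

lemma Aut_star (hB : Bᴴ * B = 1) (hg : g ∈ Aut B) : gᴴ ∈ Aut B := by
  have h1 := (Aut_dual (det_of_unitary hB)).1 hg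
  rw [inv_of_unitary hB] at h1
  have h2 := congrArg conjTranspose h1
  rw [conjTranspose_mul, conjTranspose_mul, conjTranspose_conjTranspose, ← Matrix.mul_assoc] at h2
  exact h2

/-- Square roots in the group. -/
lemma Aut_sqrt (hB : Bᴴ * B = 1) (hg : g ∈ Aut B) (hp : g.PosDef) :
    ∃ R ∈ Aut B, R.PosDef ∧ R * R = g := by
  have hBd := det_of_unitary hB
  have hBu := isUnit_iff_ne_zero.2 hBd
  obtain ⟨p, hN, hNN⟩ := Pool.Agent.W552.exists_invSqrt hp
  set N := Polynomial.aeval g p with hNdef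
  have hNu : IsUnit N.det := (Matrix.isUnit_iff_isUnit_det _).1 hN.isUnit
  have hRp : N⁻¹.PosDef := hN.inv
  have hRR : N⁻¹ * N⁻¹ = g := by
    calc N⁻¹ * N⁻¹ = N⁻¹ * N⁻¹ * (N * N * g) := by rw [hNN, Matrix.mul_one]
      _ = N⁻¹ * (N⁻¹ * N) * (N * g) := by simp only [Matrix.mul_assoc]
      _ = (N⁻¹ * N) * g := by
          rw [nonsing_inv_mul _ hNu, Matrix.mul_one, ← Matrix.mul_assoc,
            nonsing_inv_mul _ hNu]
      _ = g := by rw [nonsing_inv_mul _ hNu, Matrix.one_mul]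
  set R := N⁻¹ with hR
  have hRu : IsUnit R.det := (Matrix.isUnit_iff_isUnit_det _).1 hRp.isUnit
  have hBB : B * Bᴴ = 1 := mul_eq_one_comm.1 hB
  have hBinj : Function.Injective B.mulVec := by
    intro x y hxy
    have := congrArg (Bᴴ.mulVec) hxy
    simpa [mulVec_mulVec, hB] using this
  have hYp : (Bᴴ * (Rᵀ)⁻¹ * B).PosDef := (hRp.transpose.inv).conjTranspose_mul_mul_same hBinj
  have hYY : (Bᴴ * (Rᵀ)⁻¹ * B) * (Bᴴ * (Rᵀ)⁻¹ * B) = R * R := by
    have h1 : (Rᵀ)⁻¹ * (Rᵀ)⁻¹ = (gᵀ)⁻¹ := by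
      rw [← Matrix.mul_inv_rev, ← transpose_mul, hRR]
    have hgu : IsUnit (gᵀ).det := by
      rw [det_transpose]
      exact isUnit_iff_ne_zero.2 (det_Aut hBd hg)
    have h2 : g = Bᴴ * (gᵀ)⁻¹ * B := by
      calc g = Bᴴ * B * g := by rw [hB, one_mul]
        _ = Bᴴ * ((gᵀ)⁻¹ * gᵀ) * B * g := by rw [nonsing_inv_mul _ hgu, Matrix.mul_one]
        _ = Bᴴ * (gᵀ)⁻¹ * (gᵀ * B * g) := by simp only [Matrix.mul_assoc]
        _ = _ := by rw [hg]
    calc (Bᴴ * (Rᵀ)⁻¹ * B) * (Bᴴ * (Rᵀ)⁻¹ * B) = Bᴴ * (Rᵀ)⁻¹ * (B * Bᴴ) * (Rᵀ)⁻¹ * B := by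
          simp only [Matrix.mul_assoc]
      _ = Bᴴ * ((Rᵀ)⁻¹ * (Rᵀ)⁻¹) * B := by
          rw [hBB, Matrix.mul_one]
          simp only [Matrix.mul_assoc]
      _ = R * R := by rw [h1, hRR, ← h2]
  have hY : Bᴴ * (Rᵀ)⁻¹ * B = R := sq_unique hYp.posSemidef hRp.posSemidef hYY
  refine ⟨R, ?_, hRp, hRR⟩
  have hRu' : IsUnit (Rᵀ).det := by rwa [det_transpose]
  rw [mem_Aut]
  calc Rᵀ * B * R = Rᵀ * B * (Bᴴ * (Rᵀ)⁻¹ * B) := by rw [hY]
    _ = Rᵀ * (B * Bᴴ) * (Rᵀ)⁻¹ * B := by simp only [Matrix.mul_assoc]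
    _ = B := by rw [hBB, Matrix.mul_one, mul_nonsing_inv _ hRu', Matrix.one_mul]

section Herm

variable {n : ℕ}

/-- The hermitian product of tensors. -/
noncomputable def ip (v w : (Fin n → ι) → ℂ) : ℂ := ∑ I, starRingEnd ℂ (v I) * w I

/-- The square of the norm of a tensor. -/
noncomputable def nsq (v : (Fin n → ι) → ℂ) : ℝ := ∑ I, Complex.normSq (v I)

lemma ip_self (v : (Fin n → ι) → ℂ) : ip v v = (nsq v : ℂ) := by
  rw [ip, nsq, Complex.ofReal_sum]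
  refine Finset.sum_congr rfl fun I _ => ?_
  rw [mul_comm, Complex.mul_conj]

lemma nsq_nonneg (v : (Fin n → ι) → ℂ) : 0 ≤ nsq v :=
  Finset.sum_nonneg fun _ _ => Complex.normSq_nonneg _

lemma eq_zero_of_nsq {v : (Fin n → ι) → ℂ} (h : nsq v ≤ 0) : v = 0 := by
  have h1 : nsq v = 0 := le_antisymm h (nsq_nonneg v)
  rw [nsq, Finset.sum_eq_zero_iff_of_nonneg fun _ _ => Complex.normSq_nonneg _] at h1
  funext I
  exact Complex.normSq_eq_zero.1 (h1 I (Finset.mem_univ _))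

lemma nsq_pos {v : (Fin n → ι) → ℂ} (h : v ≠ 0) : 0 < nsq v := by
  by_contra hcon
  exact h (eq_zero_of_nsq (not_lt.1 hcon))

lemma ip_add_left (v v' w : (Fin n → ι) → ℂ) : ip (v + v') w = ip v w + ip v' w := by
  simp only [ip, Pi.add_apply, map_add, add_mul, Finset.sum_add_distrib]

lemma ip_add_right (v w w' : (Fin n → ι) → ℂ) : ip v (w + w') = ip v w + ip v w' := by
  simp only [ip, Pi.add_apply, mul_add, Finset.sum_add_distrib]

lemma ip_sub_left (v v' w : (Fin n → ι) → ℂ) : ip (v - v') w = ip v w - ip v' w := by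
  simp only [ip, Pi.sub_apply, map_sub, sub_mul, Finset.sum_sub_distrib]

lemma ip_sub_right (v w w' : (Fin n → ι) → ℂ) : ip v (w - w') = ip v w - ip v w' := by
  simp only [ip, Pi.sub_apply, mul_sub, Finset.sum_sub_distrib]

lemma ip_smul_left (c : ℂ) (v w : (Fin n → ι) → ℂ) : ip (c • v) w = starRingEnd ℂ c * ip v w := by
  simp only [ip, Pi.smul_apply, smul_eq_mul, map_mul, Finset.mul_sum, mul_assoc]

lemma ip_smul_right (c : ℂ) (v w : (Fin n → ι) → ℂ) : ip v (c • w) = c * ip v w := by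
  simp only [ip, Pi.smul_apply, smul_eq_mul, Finset.mul_sum]
  exact Finset.sum_congr rfl fun _ _ => by ring

lemma ip_zero_right (v : (Fin n → ι) → ℂ) : ip v 0 = 0 := by simp [ip]

lemma ip_zero_left (v : (Fin n → ι) → ℂ) : ip 0 v = 0 := by simp [ip]

lemma conj_ip (v w : (Fin n → ι) → ℂ) : starRingEnd ℂ (ip v w) = ip w v := by
  simp only [ip, map_sum, map_mul, Complex.conj_conj]
  exact Finset.sum_congr rfl fun _ _ => mul_comm _ _

lemma ip_tpow (g : Matrix ι ι ℂ) (v w : (Fin n → ι) → ℂ) :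
    ip (tpow g n v) w = ip v (tpow gᴴ n w) := by
  simp only [ip, tpow_apply, map_sum, map_mul, map_prod, Finset.sum_mul, Finset.mul_sum,
    conjTranspose_apply]
  rw [Finset.sum_comm]
  refine Finset.sum_congr rfl fun I _ => Finset.sum_congr rfl fun J _ => ?_
  simp only [← starRingEnd_apply]
  ring

lemma ip_tpow' (g : Matrix ι ι ℂ) (v w : (Fin n → ι) → ℂ) :
    ip v (tpow g n w) = ip (tpow gᴴ n v) w := by
  rw [ip_tpow, conjTranspose_conjTranspose]

lemma nsq_unitary {U : Matrix ι ι ℂ} (hU : Uᴴ * U = 1) (v : (Fin n → ι) → ℂ) :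
    nsq (tpow U n v) = nsq v := by
  have h1 : ((nsq (tpow U n v) : ℝ) : ℂ) = (nsq v : ℂ) := by
    rw [← ip_self, ip_tpow, ← tpow_mul, hU, tpow_one, ip_self]
  exact_mod_cast h1

lemma nsq_sub (v w : (Fin n → ι) → ℂ) : nsq (v - w) = nsq v - 2 * (ip v w).re + nsq w := by
  have h1 : ((nsq (v - w) : ℝ) : ℂ) = nsq v - (ip v w + starRingEnd ℂ (ip v w)) + nsq w := by
    rw [← ip_self, ip_sub_left, ip_sub_right, ip_sub_right, ip_self, ip_self, conj_ip]
    ring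
  have h2 := congrArg Complex.re h1
  simpa [two_mul] using h2

/-- The antilinear map of the form. -/
noncomputable def J0 (B : Matrix ι ι ℂ) (n : ℕ) (v : (Fin n → ι) → ℂ) : (Fin n → ι) → ℂ :=
  tpow Bᴴ n fun I => starRingEnd ℂ (v I)

lemma J0_add (B : Matrix ι ι ℂ) (v w : (Fin n → ι) → ℂ) :
    J0 B n (v + w) = J0 B n v + J0 B n w := by
  rw [J0, J0, J0, ← map_add]
  congr 1
  funext I
  exact map_add _ _ _

lemma J0_smul (B : Matrix ι ι ℂ) (c : ℂ) (v : (Fin n → ι) → ℂ) :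
    J0 B n (c • v) = starRingEnd ℂ c • J0 B n v := by
  rw [J0, J0, ← map_smul]
  congr 1
  funext I
  exact map_mul _ _ _

lemma ip_J0 (B : Matrix ι ι ℂ) (v w : (Fin n → ι) → ℂ) : ip (J0 B n v) w = bf (TP B n) v w := by
  simp only [ip, J0, tpow_apply, map_sum, map_mul, map_prod, Finset.sum_mul, bf,
    conjTranspose_apply, Complex.conj_conj, TP_apply]
  rw [Finset.sum_comm]
  refine Finset.sum_congr rfl fun I _ => Finset.sum_congr rfl fun J _ => ?_
  have h1 : ∀ k, starRingEnd ℂ (star (B (I k) (J k))) = B (I k) (J k) := fun k =>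
    Complex.conj_conj _
  simp only [h1]
  ring

lemma nsq_J0 (hB : Bᴴ * B = 1) (v : (Fin n → ι) → ℂ) : nsq (J0 B n v) = nsq v := by
  have hBB : B * Bᴴ = 1 := mul_eq_one_comm.1 hB
  rw [J0, nsq_unitary (by rwa [conjTranspose_conjTranspose]), nsq, nsq]
  exact Finset.sum_congr rfl fun I _ => Complex.normSq_conj _

lemma J0_tpow (hg : g ∈ Aut B) (v : (Fin n → ι) → ℂ) :
    tpow gᴴ n (J0 B n (tpow g n v)) = J0 B n v := by
  have h1 : (fun I => starRingEnd ℂ (tpow g n v I)) =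
      tpow (gᵀ)ᴴ n fun I => starRingEnd ℂ (v I) := by
    funext I
    simp only [tpow_apply, map_sum, map_mul, map_prod, conjTranspose_apply, transpose_apply]
    rfl
  have h2 : gᴴ * Bᴴ * (gᵀ)ᴴ = Bᴴ := by
    rw [← conjTranspose_mul, ← conjTranspose_mul, ← Matrix.mul_assoc, hg]
  rw [J0, J0, h1, ← tpow_mul, ← tpow_mul, h2]

lemma J0_perm (B : Matrix ι ι ℂ) (σ : Equiv.Perm (Fin n)) (t : (Fin n → ι) → ℂ) :
    J0 B n (fun J => t (J ∘ σ)) = fun I => J0 B n t (I ∘ σ) := by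
  rw [J0]
  exact tpow_perm _ σ fun I => starRingEnd ℂ (t I)

lemma J0_tmul (B : Matrix ι ι ℂ) {m : ℕ} (s : (Fin m → ι) → ℂ) (t : (Fin n → ι) → ℂ) :
    J0 B (m + n) (tmul s t) = tmul (J0 B m s) (J0 B n t) := by
  rw [J0, J0, J0, ← tpow_tmul]
  congr 1
  funext I
  exact map_mul _ _ _

lemma J0_one (B : Matrix ι ι ℂ) : J0 B 0 (fun _ => 1) = fun _ => 1 := by
  rw [J0, tpow_zero]
  funext I
  exact map_one _

lemma J0_om (hB : Bᴴ * B = 1) : J0 B 2 (om B) = om B := by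
  apply mat2_inj
  rw [J0, tpow_two, mat2_om]
  have h1 : mat2 (fun I => starRingEnd ℂ (om B I)) = Bᵀ := by
    ext i j
    rw [mat2, Matrix.of_apply, om, inv_of_unitary hB, conjTranspose_apply]
    exact Complex.conj_conj _
  have h2 : Bᵀ * (Bᴴ)ᵀ = 1 := by
    rw [← transpose_mul, hB, transpose_one]
  rw [h1, Matrix.mul_assoc, h2, Matrix.mul_one, inv_of_unitary hB]

end Herm

/-- **The lemma of Kempf and Ness.** -/
lemma kempf_ness {κ : Type*} (s : Finset κ) {d : κ → ℕ} (y : ∀ k, (Fin (d k) → ι) → ℂ)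
    {Q : Matrix ι ι ℂ} (hQ : Qᴴ = Q)
    (h1 : ∑ k ∈ s, nsq (tpow (Q * Q) (d k) (y k)) = ∑ k ∈ s, nsq (y k))
    (h2 : ∑ k ∈ s, nsq (y k) ≤ ∑ k ∈ s, nsq (tpow Q (d k) (y k))) :
    ∀ k ∈ s, tpow (Q * Q) (d k) (y k) = y k := by
  have h3 : ∀ k, (ip (y k) (tpow (Q * Q) (d k) (y k))).re = nsq (tpow Q (d k) (y k)) := by
    intro k
    rw [tpow_mul, ip_tpow', hQ, ip_self, Complex.ofReal_re]
  have h4 : ∑ k ∈ s, nsq (y k - tpow (Q * Q) (d k) (y k)) ≤ 0 := by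
    have h5 : ∀ k, nsq (y k - tpow (Q * Q) (d k) (y k)) = nsq (y k) -
        2 * nsq (tpow Q (d k) (y k)) + nsq (tpow (Q * Q) (d k) (y k)) := by
      intro k
      rw [nsq_sub, h3]
    simp only [h5]
    rw [Finset.sum_add_distrib, Finset.sum_sub_distrib, ← Finset.mul_sum, h1]
    linarith
  have h6 : ∑ k ∈ s, nsq (y k - tpow (Q * Q) (d k) (y k)) = 0 :=
    le_antisymm h4 (Finset.sum_nonneg fun _ _ => nsq_nonneg _)
  rw [Finset.sum_eq_zero_iff_of_nonneg fun _ _ => nsq_nonneg _] at h6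
  intro k hk
  exact (sub_eq_zero.1 (eq_zero_of_nsq (h6 k hk).le)).symm

end Pool.Agent.Q55.Ke
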