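import Pool.Agent.Q55.Ke.RTen
import Pool.Agent.Q55.Ke.RS

/-!
# The form of the star operator in coordinates
-/

open CategoryTheory AlgebraicGeometry TensorProduct

set_option linter.unusedSectionVars false

universe u v

namespace Pool.Agent.Q55.Ke

open Module Matrix
open Pool.Agent.H914 Pool.Agent.H914.VarClass Pool.Agent.H914.VarClass.Obj
  Pool.Agent.H914.WeilCohomology
open Pool.Agent.Y133.Half Pool.Agent.Q60.ED Pool.Agent.Q60.TD Pool.Agent.H281R3.HT
  Pool.Agent.H447 Pool.Agent.Q55 Pool.Agent.Q55.Hs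
open Pool.Agent.W552 (AS AOp RatSub Fr Sy st)
open Pool.Agent.Q60.HD (wd wd_zero wd_succ wd_map wd_prj wd_append wd_PH wb_PH sum_append' wb_xp)

variable {k : Type u} [Field k] {𝒱 : VarClass k} {ops : CycleOps 𝒱}

variable {W : WeilCohomology.{u, 0} ops} {X Y Z : 𝒱.Obj} {ι : Type} [Fintype ι] [DecidableEq ι]
  {e : Basis ι W.K (W.H X)} {D : X.Cycles} {a : ι → ℕ}

/-- The Gram matrix of the form of the star operator. -/
noncomputable def gramB (e : Basis ι W.K (W.H X)) (D : X.Cycles) (f : Module.End W.K (W.H X)) :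
    Matrix ι ι W.K := Matrix.of fun i j => Pool.Agent.W552.bf W X D f (e i) (e j)

/-- The forms on the powers in coordinates. -/
structure Pc (e : Basis ι W.K (W.H X)) (D : X.Cycles) (B : Matrix ι ι W.K) (n : ℕ)
    (g : Module.End W.K (W.H (pw X n))) : Prop where
  pz : Pz W (pw X n) (pwDiv ops D n) g
  one : PosOne W (pw X n) (pwDiv ops D n) g
  co : ∀ I J, Pool.Agent.W552.bf W (pw X n) (pwDiv ops D n) g (wb e n I) (wb e n J) =
    TP B (n + 1) I J

/-- **The forms on the powers in coordinates.** -/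
theorem exists_pc {f : Module.End W.K (W.H X)} (G : Pz W X D f) (h1 : PosOne W X D f) :
    ∀ n, ∃ g, Pc e D (gramB e D f) n g
  | 0 => ⟨f, G, h1, fun I J => by
      rw [wb_zero, wb_zero, TP_apply, Fin.prod_univ_succ, Fin.prod_univ_zero, mul_one]
      rfl⟩
  | n + 1 => by
    obtain ⟨g, G'⟩ := exists_pc G h1 n
    refine ⟨_, G'.pz.prod G, G'.one.prod G'.pz.fr G.fr h1, fun I J => ?_⟩
    rw [wb_xp, wb_xp]
    refine (G'.pz.fr.bf_ext G.fr _ _ _ _).trans ?_
    rw [G'.co]
    change TP (gramB e D f) (n + 1) _ _ * gramB e D f _ _ = TP (gramB e D f) (n + 1 + 1) I J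
    rw [TP_apply, TP_apply]
    conv_rhs => rw [Fin.prod_univ_castSucc]

variable {B : Matrix ι ι W.K} {n : ℕ} {g : Module.End W.K (W.H (pw X n))}

lemma Pc.bf (h : Pc e D B n g) (s t : (Fin (n + 1) → ι) → W.K) :
    Pool.Agent.W552.bf W (pw X n) (pwDiv ops D n) g (clsK e (prj X n) s) (clsK e (prj X n) t) =
      Pool.Agent.Q60.ED.bf (TP B (n + 1)) s t := by
  rw [clsK, clsK, map_sum (Pool.Agent.W552.bf W (pw X n) (pwDiv ops D n) g),
    LinearMap.sum_apply, Pool.Agent.Q60.ED.bf]
  refine Finset.sum_congr rfl fun I _ => ?_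
  rw [map_sum]
  refine Finset.sum_congr rfl fun J _ => ?_
  rw [map_smul, map_smul, LinearMap.smul_apply, wd_prj, wd_prj, h.co, smul_eq_mul, smul_eq_mul]
  ring

lemma Pc.symm (h : Pc e D B n g) {s t : (Fin (n + 1) → ι) → W.K} (ht : RT e (n + 1) t) :
    Pool.Agent.Q60.ED.bf (TP B (n + 1)) s t = Pool.Agent.Q60.ED.bf (TP B (n + 1)) t s := by
  rw [← h.bf, ← h.bf]
  exact bf_symm_AS h.pz.sy (RT_succ.1 ht)

lemma bf_zero {K : Type} [Field K] (B : Matrix ι ι K) (s t : (Fin 0 → ι) → K) :
    Pool.Agent.Q60.ED.bf (TP B 0) s t = s default * t default := by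
  rw [Pool.Agent.Q60.ED.bf, Fintype.sum_unique, Fintype.sum_unique, TP_apply,
    Finset.univ_eq_empty, Finset.prod_empty, mul_one]

/-- **Contractions of rational tensors.** -/
lemma RT.contr (he : ∀ j, e j ∈ PH W X (a j)) (hpc : ∀ n, ∃ g, Pc e D B n g) {m n : ℕ}
    {s : (Fin m → ι) → W.K} {t : (Fin (m + n) → ι) → W.K} (hs : RT e m s)
    (ht : RT e (m + n) t) (h0 : ∀ t, RT e 0 t → ∃ q : ℚ, t default = q) :
    RT e n (ctr B s t) := by
  intro Z f
  cases m with
  | zero =>
    obtain ⟨q, hq⟩ := h0 s hs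
    have h1 := ht Z fun i => f (Fin.cast (zero_add n) i)
    have h2 : clsK e f (ctr B s t) =
        (q : W.K) • clsK e (fun i => f (Fin.cast (zero_add n) i)) t := by
      have hu : ∀ g : (Fin 0 → ι) → W.H Z, ∑ I, g I = g default := fun g => Fintype.sum_unique g
      have hu' : ∀ g : (Fin 0 → ι) → W.K, ∑ I, g I = g default := fun g => Fintype.sum_unique g
      rw [clsK, clsK, sum_append', hu, Finset.smul_sum]
      refine Finset.sum_congr rfl fun J _ => ?_
      rw [ctr, hu', hu', smul_smul]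
      have h3 : TP B 0 (default : Fin 0 → ι) default = 1 := by
        rw [TP_apply, Finset.univ_eq_empty, Finset.prod_empty]
      rw [h3, mul_one, hq]
      congr 1
      rw [wd_append, wd_zero, one_mul]
      congr 1
      funext i
      congr 1
      ext
      simp
    rw [h2]
    exact h1.smul q
  | succ m =>
    obtain ⟨g, G⟩ := hpc m
    set F : Fin (m + 1 + n) → ((pw X m).prod Z ⟶ X) :=
      Fin.append (fun i => fst (pw X m) Z ≫ prj X m i) (fun j => snd (pw X m) Z ≫ f j) with hF
    have hγ := ht ((pw X m).prod Z) F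
    have hcs : AS W (pw X m) (clsK e (prj X m) s) := RT_succ.1 hs
    have hz := G.pz.fr.st_AS hcs
    set z := st W (pw X m) (pwDiv ops D m) g (clsK e (prj X m) s) with hzdef
    have h1 := hγ.corr hz
    have h2 : W.corr (clsK e F t) z = clsK e f (ctr B s t) := by
      have hz0 : z ∈ PH W (pw X m) 0 := (algSys W).even (AS.mem_algSpan hz)
      have e1 : ∀ I' : Fin (m + 1) → ι, W.tr (pw X m) (wb e m I' * z) =
          ∑ I, s I * TP B (m + 1) I I' := by
        intro I'
        have e2 : W.tr (pw X m) (wb e m I' * z) = Pool.Agent.W552.bf W (pw X m) (pwDiv ops D m) g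
            (clsK e (prj X m) s) (wb e m I') := by
          rw [← bf_symm_AS G.pz.sy hcs]
          rfl
        rw [e2, clsK, map_sum (Pool.Agent.W552.bf W (pw X m) (pwDiv ops D m) g),
          LinearMap.sum_apply]
        refine Finset.sum_congr rfl fun I _ => ?_
        rw [map_smul, LinearMap.smul_apply, wd_prj, G.co, smul_eq_mul]
      have e2 : ∀ (I' : Fin (m + 1) → ι) (J : Fin n → ι),
          W.corr (wd e F (Fin.append I' J)) z =
            (∑ I, s I * TP B (m + 1) I I') • wd e f J := by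
        intro I' J
        have e3 : wd e F (Fin.append I' J) = xp W (X := pw X m) (wb e m I') (wd e f J) := by
          rw [wd_append, xp, ← wd_prj, wd_map, wd_map]
          simp only [hF, Fin.append_left, Fin.append_right]
        rw [e3, corr_xp _ (wd_PH e he f J) hz0, mul_zero, pow_zero, one_mul, e1]
      have e4 : W.corr (clsK e F t) z = ∑ L, t L • W.corr (wd e F L) z := by
        rw [clsK]
        have e5 := map_sum (corrL W (pw X m) Z) (fun L => t L • wd e F L) Finset.univ
        have e6 := congrArg (fun G : W.H (pw X m) →ₗ[W.K] W.H Z => G z) e5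
        refine e6.trans ?_
        rw [LinearMap.sum_apply]
        refine Finset.sum_congr rfl fun L _ => ?_
        rw [map_smul, LinearMap.smul_apply]
        rfl
      rw [e4, sum_append', Finset.sum_comm, clsK]
      refine Finset.sum_congr rfl fun J _ => ?_
      rw [ctr, Finset.sum_comm, Finset.sum_smul]
      refine Finset.sum_congr rfl fun I' _ => ?_
      rw [e2, smul_smul, mul_comm, Finset.sum_mul]
    rw [← h2]
    exact h1

/-- The rational tensors of degree zero. -/
lemma RT.zero {f : Module.End W.K (W.H X)} (G : Fr W X D f) (h1 : PosOne W X D f)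
    {t : (Fin 0 → ι) → W.K} (ht : RT e 0 t) : ∃ q : ℚ, t default = q := by
  obtain ⟨p, hp, hp'⟩ := h1
  have h2 := ht X Fin.elim0
  rw [clsK, Fintype.sum_unique, wd_zero] at h2
  obtain ⟨q, hq⟩ := G.bf_rat h2 AS.one
  rw [map_smul, LinearMap.smul_apply, hp', smul_eq_mul] at hq
  have hp0 : (p : W.K) ≠ 0 := by exact_mod_cast hp.ne'
  refine ⟨q / p, ?_⟩
  rw [Rat.cast_div, eq_div_iff hp0, hq]

/-- The tensor of the inverse form. -/
lemma RT.inv_mem (he : ∀ j, e j ∈ PH W X (a j)) {f : Module.End W.K (W.H X)} (G : Pz W X D f)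
    (hst : AOp W X X (st W X D f)) :
    RT e 2 (om (gramB e D f)) ∧ IsUnit (gramB e D f) := by
  set B := gramB e D f with hB
  obtain ⟨c, hc, hcst⟩ := hst
  have hev : Ev W (st W X D f) := by
    rw [← hcst]
    exact Ev.corr ((algSys W).even (AS.mem_algSpan hc))
  set Ω := tn e 1 c with hΩ
  have h0 : clsK e (prj X 1) Ω = c := clsK_tn e 1 _
  have hR : RT e 2 Ω := by
    rw [RT_succ, h0]
    exact hc
  have hco : ∀ (w : Fin 2 → ι) (kk : ι), cor1 W X (wb e 1 w) (st W X D f (e kk)) =
      ((-1 : W.K) ^ (a (w 1) * a kk) * B (w 0) kk) • e (w 1) := by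
    intro w kk
    rw [wb_xp, wb_zero]
    exact corr_xp (W := W) (X := X) (Y := X) (e (w 0)) (he (w 1)) (hev _ _ (he kk))
  have h1 : ∀ kk, ∑ i, ∑ j, Ω ![i, j] • (((-1 : W.K) ^ (a j * a kk) * B i kk) • e j) = e kk := by
    intro kk
    have e1 : cor1 W X (clsK e (prj X 1) Ω) (st W X D f (e kk)) = e kk := by
      rw [h0]
      have e2 : cor1 W X c (st W X D f (e kk)) = st W X D f (st W X D f (e kk)) := by
        rw [← hcst]
        rfl
      rw [e2, G.st_st]
    rw [clsK, map_sum, LinearMap.sum_apply, sum_fin2] at e1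
    conv_rhs => rw [← e1]
    refine Finset.sum_congr rfl fun i _ => Finset.sum_congr rfl fun j _ => ?_
    rw [map_smul, LinearMap.smul_apply, wd_prj, hco]
    rfl
  have hsy : ∀ i j, B i j = (-1 : W.K) ^ a j * B j i := by
    intro i j
    change Pool.Agent.W552.bf W X D f (e i) (e j) = _ * Pool.Agent.W552.bf W X D f (e j) (e i)
    rw [G.sy, PH.par (he j), map_smul, LinearMap.smul_apply, smul_eq_mul]
  have hBΩ : B * mat2 Ω = 1 := by
    ext kk j
    have h2 := congrArg (fun x => e.repr x j) (h1 kk)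
    simp only [map_sum, map_smul, Finsupp.coe_finsetSum, Finset.sum_apply, Finsupp.smul_apply,
      Basis.repr_self, smul_eq_mul] at h2
    have h3 : ∀ i, ∑ j', Ω ![i, j'] * ((-1 : W.K) ^ (a j' * a kk) * B i kk *
        (Finsupp.single j' (1 : W.K)) j) =
        Ω ![i, j] * ((-1 : W.K) ^ (a j * a kk) * B i kk) := by
      intro i
      rw [Finset.sum_eq_single j]
      · rw [Finsupp.single_eq_same, mul_one]
      · intro j' _ hj
        rw [Finsupp.single_eq_of_ne (Ne.symm hj), mul_zero, mul_zero]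
      · intro h; exact absurd (Finset.mem_univ _) h
    simp only [h3] at h2
    have h4 : (B * mat2 Ω) kk j * ((-1 : W.K) ^ (a j * a kk) * (-1 : W.K) ^ a kk) =
        (Finsupp.single kk (1 : W.K)) j := by
      rw [← h2, Matrix.mul_apply, Finset.sum_mul]
      refine Finset.sum_congr rfl fun i _ => ?_
      rw [mat2, Matrix.of_apply, hsy i kk]
      ring
    by_cases h : kk = j
    · subst h
      have h5 : (-1 : W.K) ^ (a kk * a kk) * (-1 : W.K) ^ a kk = 1 := by
        rw [← pow_add]
        have h4 : Even (a kk * a kk + a kk) := by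
          rw [show a kk * a kk + a kk = a kk * (a kk + 1) by ring]
          exact Nat.even_mul_succ_self _
        exact h4.neg_one_pow
      rw [h5, mul_one, Finsupp.single_eq_same] at h4
      rw [h4, Matrix.one_apply_eq]
    · rw [Finsupp.single_eq_of_ne (Ne.symm h)] at h4
      rw [Matrix.one_apply_ne h]
      rcases mul_eq_zero.1 h4 with h5 | h5
      · exact h5
      · exfalso
        have h6 : (-1 : W.K) ≠ 0 := neg_ne_zero.2 one_ne_zero
        exact mul_ne_zero (pow_ne_zero _ h6) (pow_ne_zero _ h6) h5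
  have hinv : mat2 Ω = B⁻¹ := (inv_eq_right_inv hBΩ).symm
  refine ⟨?_, IsUnit.of_mul_eq_one _ hBΩ⟩
  have h5 : om B = Ω := by
    apply mat2_inj
    rw [mat2_om, hinv]
  rw [h5]
  exact hR

end Pool.Agent.Q55.Ke
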