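import Pool.Agent.Q55.Ke.RS

/-!
# Positivity of generated tensors: the abstract theorem
-/

set_option linter.unusedSectionVars false

open scoped ComplexOrder

namespace Pool.Agent.Q55.Ke

open Module Matrix Pool.Agent.Q60.ED Pool.Agent.Q60.NP
open Pool.Agent.W552 (RatSub)

variable {ι : Type} [Fintype ι] [DecidableEq ι] {B : Matrix ι ι ℂ}

/-- The translate of the antilinear map. -/
noncomputable def Jg (B g : Matrix ι ι ℂ) (n : ℕ) :
    ((Fin n → ι) → ℂ) →ₛₗ[starRingEnd ℂ] ((Fin n → ι) → ℂ) where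
  toFun v := tpow g⁻¹ n (J0 B n (tpow g n v))
  map_add' v w := by rw [map_add, J0_add, map_add]
  map_smul' c v := by rw [map_smul, J0_smul, map_smul]

lemma Jg_apply (g : Matrix ι ι ℂ) {n : ℕ} (v : (Fin n → ι) → ℂ) :
    Jg B g n v = tpow g⁻¹ n (J0 B n (tpow g n v)) := rfl

lemma tpow_inv_tpow {g : Matrix ι ι ℂ} (hg : g.det ≠ 0) {n : ℕ} (v : (Fin n → ι) → ℂ) :
    tpow g⁻¹ n (tpow g n v) = v := by
  rw [← tpow_mul, nonsing_inv_mul _ (isUnit_iff_ne_zero.2 hg), tpow_one]

lemma tpow_tpow_inv {g : Matrix ι ι ℂ} (hg : g.det ≠ 0) {n : ℕ} (v : (Fin n → ι) → ℂ) :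
    tpow g n (tpow g⁻¹ n v) = v := by
  rw [← tpow_mul, mul_nonsing_inv _ (isUnit_iff_ne_zero.2 hg), tpow_one]

/-- The matrix which realises the antilinear structure on the rational tensors of the system. -/
lemma exists_u (hB : Bᴴ * B = 1) (R : RS B) {M : ℕ} {T : TSys ℂ ι}
    (hT : T.S = (R.span.genS M).S)
    (hnd : ∀ n, ∀ v ∈ T.S n, (∀ w ∈ T.S n, bf (TP B n) v w = 0) → v = 0)
    {g : Matrix ι ι ℂ} (hg : g ∈ Aut B) :
    ∃ u ∈ Aut B, ∀ n r, R.R n r → r ∈ T.S n → tpow u n (tpow g n r) = J0 B n (tpow g n r) := by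
  have hBd := det_of_unitary hB
  have hgd := det_Aut hBd hg
  set R' := R.inter (R.span.genS M) with hR'
  have hTS : ∀ n, T.S n = Submodule.span ℂ {t | R'.R n t} := by
    intro n
    rw [hT, R.genS_span M n]
    rfl
  have hRT : ∀ {n r}, R'.R n r → r ∈ T.S n := by
    intro n r hr
    rw [hTS]
    exact Submodule.subset_span hr
  have hF : ∀ n, ∃ F : ((Fin n → ι) → ℂ) →ₗ[ℂ] ((Fin n → ι) → ℂ), ∀ r, R'.R n r →
      F r = Jg B g n r := by
    intro n
    refine exists_lin {t | R'.R n t} (bfB (TP B n)) ?_ ?_ (Jg B g n)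
    · intro r hr r' hr'
      exact R'.bf_real hr hr'
    · rw [← hTS]
      exact hnd n
  choose F hF using hF
  obtain ⟨k, hk⟩ : ∃ k : Matrix ι ι ℂ, ∀ n, ∀ s ∈ T.S n, tpow k n s = F n s := by
    refine exists_matrix_of T (fun n => F n) (fun n s _ t _ => map_add _ _ _)
      (fun n c s _ => map_smul _ _ _) ?_ ?_ ?_
    · intro n σ t ht
      rw [hTS] at ht
      induction ht using Submodule.span_induction with
      | mem t ht =>
        rw [hF n _ (R'.perm σ ht), hF n t ht, Jg_apply, Jg_apply, tpow_perm, J0_perm, tpow_perm]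
      | zero =>
        have h1 : (fun J : Fin n → ι => (0 : (Fin n → ι) → ℂ) (J ∘ σ)) = 0 := rfl
        rw [h1, map_zero]
        rfl
      | add x y _ _ hx hy =>
        have h1 : (fun J : Fin n → ι => (x + y) (J ∘ σ)) =
            (fun J => x (J ∘ σ)) + fun J => y (J ∘ σ) := rfl
        rw [h1, map_add, hx, hy, map_add]
        rfl
      | smul c x _ hx =>
        have h1 : (fun J : Fin n → ι => (c • x) (J ∘ σ)) = c • fun J => x (J ∘ σ) := rfl
        rw [h1, map_smul, hx, map_smul]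
        rfl
    · intro m n s hs t ht
      rw [hTS] at hs ht
      induction hs using Submodule.span_induction with
      | mem s hs =>
        induction ht using Submodule.span_induction with
        | mem t ht =>
          rw [hF _ _ (R'.mul hs ht), hF m s hs, hF n t ht, Jg_apply, Jg_apply, Jg_apply,
            tpow_tmul, J0_tmul, tpow_tmul]
        | zero => rw [tmul_zero_right, map_zero, map_zero, tmul_zero_right]
        | add x y _ _ hx hy => rw [tmul_add_right, map_add, hx, hy, map_add, tmul_add_right]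
        | smul c x _ hx => rw [tmul_smul_right, map_smul, hx, map_smul, tmul_smul_right]
      | zero => rw [tmul_zero_left, map_zero, map_zero, tmul_zero_left]
      | add x y _ _ hx hy => rw [tmul_add_left, map_add, hx, hy, map_add, tmul_add_left]
      | smul c x _ hx => rw [tmul_smul_left, map_smul, hx, map_smul, tmul_smul_left]
    · rw [hF 0 _ R'.one, Jg_apply, tpow_zero, tpow_zero, J0_one]
  have hkA : k ∈ Aut B := by
    rw [Aut_om hBd, hk 2 _ (hRT R'.om), hF 2 _ R'.om, Jg_apply, (Aut_om hBd).1 hg, J0_om hB]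
    exact (Aut_om hBd).1 (inv_mem_Aut hBd hg)
  refine ⟨g * k * g⁻¹, mul_mem_Aut (mul_mem_Aut hg hkA) (inv_mem_Aut hBd hg), ?_⟩
  intro n r hr hrT
  have hr' : R'.R n r := ⟨hr, by rw [← hT]; exact hrT⟩
  rw [tpow_mul, tpow_inv_tpow hgd, tpow_mul, hk n r hrT, hF n r hr', Jg_apply,
    tpow_tpow_inv hgd]

/-- The unitary matrix which realises the antilinear structure on the rational tensors of the
system. -/
theorem exists_k0 (hB : Bᴴ * B = 1) (R : RS B) {M : ℕ} {T : TSys ℂ ι}
    (hT : T.S = (R.span.genS M).S)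
    (hnd : ∀ n, ∀ v ∈ T.S n, (∀ w ∈ T.S n, bf (TP B n) v w = 0) → v = 0) :
    ∃ g ∈ Aut B, ∃ k ∈ Aut B, kᴴ * k = 1 ∧
      (∀ n r, R.R n r → r ∈ T.S n → tpow k n (tpow g n r) = J0 B n (tpow g n r)) ∧
      ∀ n, ∀ t ∈ T.S n, tpow g⁻¹ n (tpow k n (tpow g n t)) ∈ T.S n := by
  classical
  have hBd := det_of_unitary hB
  have hfg : ∀ m, ∃ s : Finset ((Fin m → ι) → ℂ), (∀ x ∈ s, R.R m x) ∧
      Submodule.span ℂ {t | R.R m t} = Submodule.span ℂ (s : Set ((Fin m → ι) → ℂ)) := by
    intro m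
    have h0 : (Submodule.span ℂ {t : (Fin m → ι) → ℂ | R.R m t}).FG :=
      IsNoetherian.noetherian _
    obtain ⟨s, h1, h2⟩ := (Submodule.fg_span_iff_fg_span_finset_subset
      {t : (Fin m → ι) → ℂ | R.R m t}).1 h0
    exact ⟨s, fun x hx => h1 hx, h2⟩
  choose s hsR hspan using hfg
  let κ : Type := Σ m : Fin (M + 1), {x // x ∈ s m}
  let d : κ → ℕ := fun k => k.1
  let x : ∀ k : κ, (Fin (d k) → ι) → ℂ := fun k => k.2.1
  have hxR : ∀ k, R.R (d k) (x k) := fun k => hsR _ _ k.2.2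
  have hxT : ∀ k, x k ∈ T.S (d k) := by
    intro k
    rw [hT]
    exact CSys.le_genS (Nat.lt_succ_iff.1 k.1.2) (Submodule.subset_span (hxR k))
  have hxspan : ∀ m ≤ M, ∀ D : CSys B, (∀ k, x k ∈ D.S (d k)) → R.span.S m ≤ D.S m := by
    intro m hm D hD
    rw [RS.span_S, hspan]
    refine Submodule.span_le.2 fun y hy => ?_
    exact hD ⟨⟨m, Nat.lt_succ_iff.2 hm⟩, ⟨y, hy⟩⟩
  obtain ⟨g, hg, hmin⟩ := exists_min hBd hT x hxT hxspan
  have hgd := det_Aut hBd hg
  obtain ⟨u, hu, hur⟩ := exists_u hB R hT hnd hg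
  let y : ∀ k : κ, (Fin (d k) → ι) → ℂ := fun k => tpow g (d k) (x k)
  -- the consequence of minimality
  have key : ∀ v ∈ Aut B, (∀ k, nsq (tpow v (d k) (y k)) = nsq (y k)) →
      ∃ P ∈ Aut B, P.PosDef ∧ P * P = vᴴ * v ∧ ∀ k, tpow P (d k) (y k) = y k := by
    intro v hv hvy
    have hvd := det_Aut hBd hv
    have hvu : IsUnit v := (Matrix.isUnit_iff_isUnit_det _).2 (isUnit_iff_ne_zero.2 hvd)
    have hinj : Function.Injective v.mulVec := by
      intro a b hab
      have h1 := congrArg (v⁻¹.mulVec) hab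
      simpa [mulVec_mulVec, nonsing_inv_mul _ (isUnit_iff_ne_zero.2 hvd)] using h1
    have hpd : (vᴴ * v).PosDef := by
      have h1 := (PosDef.one (n := ι) (R := ℂ)).conjTranspose_mul_mul_same hinj
      rwa [Matrix.mul_one] at h1
    obtain ⟨P, hP, hPp, hPP⟩ := Aut_sqrt hB (mul_mem_Aut (Aut_star hB hv) hv) hpd
    obtain ⟨Q, hQ, hQp, hQQ⟩ := Aut_sqrt hB hP hPp
    refine ⟨P, hP, hPp, hPP, ?_⟩
    have hPn : ∀ k, nsq (tpow P (d k) (y k)) = nsq (y k) := by
      intro k
      rw [← hvy k]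
      have h1 : ((nsq (tpow P (d k) (y k)) : ℝ) : ℂ) = (nsq (tpow v (d k) (y k)) : ℂ) := by
        rw [← ip_self, ← ip_self, ip_tpow, hPp.isHermitian.eq, ← tpow_mul, hPP, tpow_mul]
        exact (ip_tpow v _ _).symm
      exact_mod_cast h1
    have h2 : ∑ k, nsq (y k) ≤ ∑ k, nsq (tpow Q (d k) (y k)) := by
      have h3 := hmin (Q * g) (mul_mem_Aut hQ hg)
      simp only [len, tpow_mul] at h3
      exact h3
    have h3 := kempf_ness Finset.univ y hQp.isHermitian.eq (by
      rw [hQQ]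
      exact Finset.sum_congr rfl fun k _ => hPn k) h2
    rw [hQQ] at h3
    exact fun k => h3 k (Finset.mem_univ _)
  -- from the family to the system
  have ext : ∀ v ∈ Aut B, (∀ k, tpow v (d k) (y k) = y k) →
      ∀ n, ∀ t ∈ T.S n, tpow v n (tpow g n t) = tpow g n t := by
    intro v hv hvy n t ht
    have hw : g⁻¹ * v * g ∈ Aut B := mul_mem_Aut (mul_mem_Aut (inv_mem_Aut hBd hg) hv) hg
    have h1 : tpow (g⁻¹ * v * g) n t = t := by
      rw [hT] at ht
      refine fix_genS hBd hw (fun m hm s hs => ?_) ht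
      refine (mem_fixSys hBd hw).1 (hxspan m hm (fixSys hBd hw) (fun k => ?_) hs)
      rw [mem_fixSys, tpow_mul, tpow_mul]
      change tpow g⁻¹ _ (tpow v (d k) (y k)) = _
      rw [hvy k, tpow_inv_tpow hgd]
    rw [tpow_mul, tpow_mul] at h1
    have h2 := congrArg (tpow g n) h1
    rwa [tpow_tpow_inv hgd] at h2
  obtain ⟨P, hP, hPp, hPP, hPy⟩ := key u hu fun k => by
    change nsq (tpow u (d k) (tpow g (d k) (x k))) = nsq (tpow g (d k) (x k))
    rw [hur _ _ (hxR k) (hxT k), nsq_J0 hB]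
  have hPT := ext P hP hPy
  have hPd := det_Aut hBd hP
  have hPu := isUnit_iff_ne_zero.2 hPd
  have hPh : Pᴴ = P := hPp.isHermitian.eq
  have hPih : (P⁻¹)ᴴ = P⁻¹ := by rw [conjTranspose_nonsing_inv, hPh]
  have hkr : ∀ n r, R.R n r → r ∈ T.S n →
      tpow (u * P⁻¹) n (tpow g n r) = J0 B n (tpow g n r) := by
    intro n r hr hrT
    have h1 : tpow P⁻¹ n (tpow g n r) = tpow g n r := by
      conv_lhs => rw [← hPT n r hrT]
      rw [tpow_inv_tpow hPd]
    rw [tpow_mul, h1, hur n r hr hrT]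
  refine ⟨g, hg, u * P⁻¹, mul_mem_Aut hu (inv_mem_Aut hBd hP), ?_, hkr, ?_⟩
  · rw [conjTranspose_mul, hPih]
    calc P⁻¹ * uᴴ * (u * P⁻¹) = P⁻¹ * (uᴴ * u) * P⁻¹ := by simp only [Matrix.mul_assoc]
      _ = (P⁻¹ * P) * (P * P⁻¹) := by rw [← hPP]; simp only [Matrix.mul_assoc]
      _ = 1 := by rw [nonsing_inv_mul _ hPu, mul_nonsing_inv _ hPu, Matrix.mul_one]
  · intro n t ht
    have hom : (om B : (Fin 2 → ι) → ℂ) ∈ T.S 2 := by
      rw [hT]
      exact (R.span.genS M).om
    have homd : (mat2 (om B)).det ≠ 0 := by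
      rw [mat2_om]
      exact (Matrix.isUnit_nonsing_inv_det _ (isUnit_iff_ne_zero.2 hBd)).ne_zero
    refine T.mem_of_fixed hom homd fun m hm => ?_
    have hmA : m ∈ Aut B := (Aut_om hBd).2 (hm 2 _ hom)
    set m' := g * m * g⁻¹ with hm'
    have hm'A : m' ∈ Aut B := mul_mem_Aut (mul_mem_Aut hg hmA) (inv_mem_Aut hBd hg)
    have hm'T : ∀ n, ∀ t ∈ T.S n, tpow m' n (tpow g n t) = tpow g n t := by
      intro n t ht
      rw [hm', tpow_mul, tpow_inv_tpow hgd, tpow_mul, hm n t ht]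
    obtain ⟨P', hP'A, -, hPP', hP'y⟩ := key m' hm'A fun k => by
      change nsq (tpow m' (d k) (tpow g (d k) (x k))) = nsq (tpow g (d k) (x k))
      rw [hm'T _ _ (hxT k)]
    have hsy : ∀ k, tpow m'ᴴ (d k) (y k) = y k := by
      intro k
      have h1 : tpow (m'ᴴ * m') (d k) (y k) = y k := by
        rw [← hPP', tpow_mul, hP'y, hP'y]
      rw [tpow_mul] at h1
      have h2 : tpow m' (d k) (y k) = y k := hm'T _ _ (hxT k)
      rwa [h2] at h1
    have hsT := ext m'ᴴ (Aut_star hB hm'A) hsy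
    -- the conjugate matrix fixes the images of the rational tensors
    have hfix : ∀ t ∈ T.S n, tpow m' n (tpow (u * P⁻¹) n (tpow g n t)) =
        tpow (u * P⁻¹) n (tpow g n t) := by
      intro t ht
      have hTS : T.S n = Submodule.span ℂ {t | (R.inter (R.span.genS M)).R n t} := by
        rw [hT, R.genS_span M n]
        rfl
      rw [hTS] at ht
      induction ht using Submodule.span_induction with
      | mem r hr =>
        have hrT : r ∈ T.S n := by
          rw [hT]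
          exact hr.2
        rw [hkr n r hr.1 hrT]
        have h1 := J0_tpow (n := n) (Aut_star hB hm'A) (tpow g n r)
        rw [conjTranspose_conjTranspose, hsT n r hrT] at h1
        exact h1
      | zero => simp only [map_zero]
      | add a b _ _ ha hb => simp only [map_add, ha, hb]
      | smul c a _ ha => simp only [map_smul, ha]
    have h1 := hfix t ht
    rw [hm', tpow_mul, tpow_mul] at h1
    have h2 := congrArg (tpow g⁻¹ n) h1
    rwa [tpow_inv_tpow hgd] at h2

end Pool.Agent.Q55.Ke
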